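import Pool.Agent.Q30.FJ.Cox2

/-!
# Artin groups and Shephard groups
-/

set_option autoImplicit false

namespace Q9.FJA

open Pool.Agent.Helper741 (alt map_alt)
open Q30.FJ (cmap)

/-- A Coxeter matrix together with even orders `p s` of the generators (`0` means infinity); the
orders of `s` and `t` agree if `M s t` is odd. -/
structure ShData (B : Type) where
  M : CoxeterMatrix B
  p : B → ℕ
  even : ∀ s, Even (p s)
  odd : ∀ s t, Odd (M s t) → p s = p t

variable {B : Type}

/-- the relations `s t s ⋯ = t s t ⋯` with `M s t` factors on both sides (no relation if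
`M s t = 0`) and `s ^ p s = 1` (no relation if `p s = 0`) -/
def shRels (D : ShData B) : Set (FreeGroup B) :=
  {r | (∃ s t, r = alt (FreeGroup.of s) (FreeGroup.of t) (D.M s t) *
    (alt (FreeGroup.of t) (FreeGroup.of s) (D.M s t))⁻¹) ∨ ∃ s, r = FreeGroup.of s ^ D.p s}

/-- the Shephard group -/
abbrev Shep (D : ShData B) : Type := PresentedGroup (shRels D)

/-- the standard generators -/
def sg (D : ShData B) (s : B) : Shep D := PresentedGroup.of s

/-- the Coxeter matrix `M` with infinite orders -/
def artinData (M : CoxeterMatrix B) : ShData B where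
  M := M
  p := fun _ => 0
  even := fun _ => Even.zero
  odd := fun _ _ _ => rfl

/-- the Artin group of a Coxeter matrix; `M s t = 0` means infinity -/
abbrev Artin (M : CoxeterMatrix B) : Type := Shep (artinData M)

variable (D : ShData B)

theorem sg_rel (s t : B) :
    alt (sg D s) (sg D t) (D.M s t) = alt (sg D t) (sg D s) (D.M s t) := by
  have h1 : (QuotientGroup.mk' (Subgroup.normalClosure (shRels D)))
      (alt (FreeGroup.of s) (FreeGroup.of t) (D.M s t) *
        (alt (FreeGroup.of t) (FreeGroup.of s) (D.M s t))⁻¹) = 1 :=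
    (QuotientGroup.eq_one_iff _).2 (Subgroup.subset_normalClosure (Or.inl ⟨s, t, rfl⟩))
  rw [map_mul, map_inv, map_alt, map_alt, mul_inv_eq_one] at h1
  exact h1

theorem sg_pow (s : B) : sg D s ^ D.p s = 1 := by
  have h1 : (QuotientGroup.mk' (Subgroup.normalClosure (shRels D))) (FreeGroup.of s ^ D.p s) = 1 :=
    (QuotientGroup.eq_one_iff _).2 (Subgroup.subset_normalClosure (Or.inr ⟨s, rfl⟩))
  rw [map_pow] at h1
  exact h1

variable {D}

/-- the universal property -/
def lift {H : Type} [Group H] (f : B → H)
    (hf : ∀ s t, alt (f s) (f t) (D.M s t) = alt (f t) (f s) (D.M s t))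
    (hp : ∀ s, f s ^ D.p s = 1) : Shep D →* H :=
  PresentedGroup.toGroup (f := f) (by
    rintro _ (⟨s, t, rfl⟩ | ⟨s, rfl⟩)
    · rw [map_mul, map_inv, map_alt, map_alt, FreeGroup.lift_apply_of, FreeGroup.lift_apply_of, hf,
        mul_inv_cancel]
    · rw [map_pow, FreeGroup.lift_apply_of, hp])

theorem lift_sg {H : Type} [Group H] (f : B → H)
    (hf : ∀ s t, alt (f s) (f t) (D.M s t) = alt (f t) (f s) (D.M s t))
    (hp : ∀ s, f s ^ D.p s = 1) (s : B) :
    lift f hf hp (sg D s) = f s := PresentedGroup.toGroup.of _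

theorem hom_ext {H : Type} [Group H] {f g : Shep D →* H} (h : ∀ s, f (sg D s) = g (sg D s)) :
    f = g := PresentedGroup.ext h

variable (D) in
theorem closure_sg : Subgroup.closure (Set.range (sg D)) = ⊤ :=
  PresentedGroup.closure_range_of _

theorem induct {p : Shep D → Prop} (h1 : p 1) (hs : ∀ s, p (sg D s))
    (hm : ∀ a b, p a → p b → p (a * b)) (hi : ∀ a, p a → p a⁻¹) (a : Shep D) : p a := by
  have h : a ∈ Subgroup.closure (Set.range (sg D)) := by
    rw [closure_sg]
    trivial
  induction h using Subgroup.closure_induction with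
  | mem x hx =>
    obtain ⟨s, rfl⟩ := hx
    exact hs s
  | one => exact h1
  | mul x y _ _ hx hy => exact hm x y hx hy
  | inv x _ hx => exact hi x hx

/-- a map which preserves the data -/
structure Emb {B' : Type} (D : ShData B) (D' : ShData B') (ι : B → B') : Prop where
  m : ∀ s t, D'.M (ι s) (ι t) = D.M s t
  p : ∀ s, D'.p (ι s) = D.p s

/-- functoriality -/
def amap {B' : Type} (D : ShData B) (D' : ShData B') (ι : B → B') (h : Emb D D' ι) :
    Shep D →* Shep D' :=
  lift (fun s => sg D' (ι s)) (fun s t => by rw [← h.m s t]; exact sg_rel D' _ _)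
    (fun s => by rw [← h.p s]; exact sg_pow D' _)

theorem amap_sg {B' : Type} (D : ShData B) (D' : ShData B') (ι : B → B')
    (h : Emb D D' ι) (s : B) : amap D D' ι h (sg D s) = sg D' (ι s) :=
  lift_sg _ _ _ s

theorem amap_comp {B' B'' : Type} (D : ShData B) (D' : ShData B')
    (D'' : ShData B'') (ι : B → B') (κ : B' → B'')
    (h : Emb D D' ι) (h' : Emb D' D'' κ) (h'' : Emb D D'' (fun s => κ (ι s))) (x : Shep D) :
    amap D' D'' κ h' (amap D D' ι h x) = amap D D'' (fun s => κ (ι s)) h'' x := by
  have h1 : (amap D' D'' κ h').comp (amap D D' ι h) = amap D D'' (fun s => κ (ι s)) h'' := by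
    apply hom_ext
    intro s
    rw [MonoidHom.comp_apply, amap_sg, amap_sg, amap_sg]
  exact DFunLike.congr_fun h1 x

theorem amap_id (D : ShData B) {ι : B → B} (h : Emb D D ι) (he : ∀ s, ι s = s)
    (x : Shep D) : amap D D ι h x = x := by
  have h1 : amap D D ι h = MonoidHom.id _ := by
    apply hom_ext
    intro s
    rw [amap_sg, MonoidHom.id_apply, he]
  exact DFunLike.congr_fun h1 x

/-- the data of a subset -/
def res {A : Type} (D : ShData B) (ι : A → B) (hι : Function.Injective ι) : ShData A where
  M := cmap D.M ι hι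
  p := fun a => D.p (ι a)
  even := fun a => D.even (ι a)
  odd := fun a b h => D.odd (ι a) (ι b) h

theorem res_emb {A : Type} (D : ShData B) (ι : A → B) (hι : Function.Injective ι) :
    Emb (res D ι hι) D ι := ⟨fun _ _ => rfl, fun _ => rfl⟩

theorem emb_res {A B' : Type} {D : ShData B} {D' : ShData B'} (κ : A → B') (hκ : Function.Injective κ)
    (f : B → A) (h : Emb D D' (fun b => κ (f b))) : Emb D (res D' κ hκ) f :=
  ⟨fun s t => h.m s t, fun s => h.p s⟩

/-- the homomorphism from the group of a subset -/
def pmap {A : Type} (D : ShData B) (ι : A → B) (hι : Function.Injective ι) :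
    Shep (res D ι hι) →* Shep D := amap _ D ι (res_emb D ι hι)

theorem pmap_sg {A : Type} (D : ShData B) (ι : A → B) (hι : Function.Injective ι) (a : A) :
    pmap D ι hι (sg _ a) = sg D (ι a) := amap_sg _ D ι (res_emb D ι hι) a

/-- the relations hold for the simple reflections of a Coxeter system -/
theorem simple_rel {M : CoxeterMatrix B} {W : Type} [Group W] (cs : CoxeterSystem M W) (s t : B) :
    alt (cs.simple s) (cs.simple t) (M s t) = alt (cs.simple t) (cs.simple s) (M s t) :=
  Pool.Agent.Helper741.alt_comm_of_pow (cs.simple_mul_simple_self s) (cs.simple_mul_simple_self t)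
    (cs.simple_mul_simple_pow s t)

theorem simple_pow {M : CoxeterMatrix B} {W : Type} [Group W] (cs : CoxeterSystem M W) (s : B)
    {n : ℕ} (hn : Even n) : cs.simple s ^ n = 1 := by
  obtain ⟨k, rfl⟩ := hn
  rw [← two_mul, pow_mul, pow_two, cs.simple_mul_simple_self, one_pow]

/-- the projection to the Coxeter group -/
def toCox {W : Type} [Group W] (cs : CoxeterSystem D.M W) : Shep D →* W :=
  lift cs.simple (simple_rel cs) (fun s => simple_pow cs s (D.even s))

theorem toCox_sg {W : Type} [Group W] (cs : CoxeterSystem D.M W) (s : B) :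
    toCox cs (sg D s) = cs.simple s := lift_sg _ _ _ s

/-- conjugate simple reflections have the same order -/
theorem order_eq {W : Type} [Group W] (cs : CoxeterSystem D.M W) {s t : B} {w : W}
    (h : cs.simple s * w = w * cs.simple t) : D.p s = D.p t := by
  classical
  -- the homomorphism which counts the letters of given order modulo two
  have hl : D.M.IsLiftable (fun s : B =>
      (Multiplicative.ofAdd (Pi.single (D.p s) 1 : ℕ → ZMod 2))) := by
    intro s t
    rw [← ofAdd_add, ← ofAdd_nsmul]
    have h1 : D.M s t • (Pi.single (D.p s) 1 + Pi.single (D.p t) 1 : ℕ → ZMod 2) = 0 := by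
      rcases Nat.even_or_odd (D.M s t) with h2 | h2
      · obtain ⟨k, hk⟩ := h2
        rw [hk, ← two_mul, mul_comm, mul_smul]
        have h3 : ∀ v : ℕ → ZMod 2, 2 • v = 0 := by
          intro v
          funext n
          rw [Pi.smul_apply, Pi.zero_apply, nsmul_eq_mul]
          have : ((2 : ℕ) : ZMod 2) = 0 := rfl
          rw [this, zero_mul]
        rw [h3, smul_zero]
      · rw [D.odd s t h2, ← two_smul ℕ, smul_smul, mul_comm, mul_smul]
        have h3 : ∀ v : ℕ → ZMod 2, 2 • v = 0 := by
          intro v
          funext n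
          rw [Pi.smul_apply, Pi.zero_apply, nsmul_eq_mul]
          have : ((2 : ℕ) : ZMod 2) = 0 := rfl
          rw [this, zero_mul]
        rw [h3]
    rw [h1]
    rfl
  have h2 := congrArg (cs.lift ⟨_, hl⟩) h
  rw [map_mul, map_mul, cs.lift_apply_simple hl, cs.lift_apply_simple hl, mul_comm] at h2
  have h3 := congrArg Multiplicative.toAdd (mul_left_cancel h2)
  rw [toAdd_ofAdd, toAdd_ofAdd] at h3
  have h4 := congrFun h3 (D.p s)
  by_contra hne
  rw [Pi.single_eq_same, Pi.single_eq_of_ne hne] at h4
  exact one_ne_zero h4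

end Q9.FJA
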