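import Pool.Agent.Q9.FJA.Art
import Pool.Agent.Q9.FJA.Mat

/-!
# The cocycle of an Artin group with values in a parabolic subgroup
-/

set_option autoImplicit false

namespace Q9.FJA

open Pool.Agent.Helper741 (alt aw aw_prod isReduced_aw wordProd_aw alt_comm_of_pow)
open CoxeterSystem
open Q27.Cox (P R)

variable {B : Type} {M : CoxeterMatrix B} {W : Type} [Group W] (cs : CoxeterSystem M W)
  (J : Set B)

theorem rep_exists (x : W ⧸ P cs J) : ∃ w ∈ R cs J, ((w : W) : W ⧸ P cs J) = x := by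
  obtain ⟨u, rfl⟩ := QuotientGroup.mk_surjective x
  obtain ⟨a, ha, b, hb, h⟩ := Q27.Cox.exists_decomp_R (cs := cs) J u
  refine ⟨a, ha, ?_⟩
  rw [QuotientGroup.eq, h, inv_mul_cancel_left]
  exact hb

/-- the element of minimal length of a coset -/
noncomputable def rp (x : W ⧸ P cs J) : W := (rep_exists cs J x).choose

theorem rp_mem (x : W ⧸ P cs J) : rp cs J x ∈ R cs J := (rep_exists cs J x).choose_spec.1

theorem rp_mk (x : W ⧸ P cs J) : ((rp cs J x : W) : W ⧸ P cs J) = x :=
  (rep_exists cs J x).choose_spec.2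

theorem rp_unique {w : W} (hw : w ∈ R cs J) : rp cs J (w : W ⧸ P cs J) = w := by
  have h1 := rp_mk cs J (w : W ⧸ P cs J)
  rw [QuotientGroup.eq] at h1
  refine (Q27.Cox.decomp_R_unique (rp_mem cs J _) hw h1 (Subgroup.one_mem _) ?_).1
  rw [mul_inv_cancel_left, mul_one]

theorem rp_smul (w : W) (x : W ⧸ P cs J) :
    (rp cs J (w • x))⁻¹ * (w * rp cs J x) ∈ P cs J := by
  rw [← QuotientGroup.eq, rp_mk]
  conv_lhs => rw [← rp_mk cs J x]
  rfl

theorem step (s : B) (x : W ⧸ P cs J) :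
    (rp cs J (cs.simple s • x) = cs.simple s * rp cs J x) ∨
      ∃ j ∈ J, cs.simple s • x = x ∧ cs.simple s * rp cs J x = rp cs J x * cs.simple j := by
  have h1 : cs.simple s * rp cs J x ∈ R cs J ∨
      ∃ j ∈ J, cs.simple s * rp cs J x = rp cs J x * cs.simple j := by
    rcases cs.length_simple_mul (rp cs J x) s with h | h
    · exact Q27.Cox.deodhar_up (rp_mem cs J x) (by omega)
    · exact Or.inl (Q27.Cox.deodhar_down (rp_mem cs J x) (by omega))
  have h2 : cs.simple s • x = ((cs.simple s * rp cs J x : W) : W ⧸ P cs J) := by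
    conv_lhs => rw [← rp_mk cs J x]
    rfl
  rcases h1 with h | ⟨j, hj, h⟩
  · left
    rw [h2, rp_unique cs J h]
  · right
    refine ⟨j, hj, ?_, h⟩
    rw [h2, h]
    conv_rhs => rw [← rp_mk cs J x]
    rw [QuotientGroup.eq, mul_inv_rev, inv_mul_cancel_right]
    exact Subgroup.inv_mem _ (Q27.Cox.simple_mem_P hj)

theorem lb_exists (s : B) (x : W ⧸ P cs J) : ∃ l : List B,
    (l = [] ∧ rp cs J (cs.simple s • x) = cs.simple s * rp cs J x) ∨
    ∃ j ∈ J, l = [j] ∧ cs.simple s • x = x ∧ cs.simple s * rp cs J x = rp cs J x * cs.simple j := by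
  rcases step cs J s x with h | ⟨j, hj, h1, h2⟩
  · exact ⟨[], Or.inl ⟨rfl, h⟩⟩
  · exact ⟨[j], Or.inr ⟨j, hj, rfl, h1, h2⟩⟩

/-- the label -/
noncomputable def lb (s : B) (x : W ⧸ P cs J) : List B := (lb_exists cs J s x).choose

theorem lb_spec (s : B) (x : W ⧸ P cs J) :
    (lb cs J s x = [] ∧ rp cs J (cs.simple s • x) = cs.simple s * rp cs J x) ∨
    ∃ j ∈ J, lb cs J s x = [j] ∧ cs.simple s • x = x ∧
      cs.simple s * rp cs J x = rp cs J x * cs.simple j := (lb_exists cs J s x).choose_spec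

theorem lb_prod (s : B) (x : W ⧸ P cs J) : cs.simple s * rp cs J x =
    rp cs J (cs.simple s • x) * cs.wordProd (lb cs J s x) := by
  rcases lb_spec cs J s x with ⟨h1, h2⟩ | ⟨j, hj, h1, h2, h3⟩
  · rw [h1, h2, cs.wordProd_nil, mul_one]
  · rw [h1, h2, h3, cs.wordProd_singleton]

theorem lb_mem (s : B) (x : W ⧸ P cs J) : ∀ i ∈ lb cs J s x, i ∈ J := by
  rcases lb_spec cs J s x with ⟨h1, h2⟩ | ⟨j, hj, h1, h2, h3⟩
  · rw [h1]
    simp
  · rw [h1]
    simpa using hj

/-- the labels of a word -/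
noncomputable def LB : List B → (W ⧸ P cs J) → List B
  | [], _ => []
  | s :: ω, x => lb cs J s (cs.wordProd ω • x) ++ LB ω x

theorem LB_cons (s : B) (ω : List B) (x : W ⧸ P cs J) :
    LB cs J (s :: ω) x = lb cs J s (cs.wordProd ω • x) ++ LB cs J ω x := rfl

theorem LB_mem (ω : List B) (x : W ⧸ P cs J) : ∀ i ∈ LB cs J ω x, i ∈ J := by
  induction ω with
  | nil => intro i hi; exact absurd hi (List.not_mem_nil)
  | cons s ω ih =>
    intro i hi
    rw [LB_cons, List.mem_append] at hi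
    exact hi.elim (lb_mem cs J s _ i) (ih i)

theorem LB_prod (ω : List B) (x : W ⧸ P cs J) : cs.wordProd ω * rp cs J x =
    rp cs J (cs.wordProd ω • x) * cs.wordProd (LB cs J ω x) := by
  induction ω with
  | nil => rw [cs.wordProd_nil, one_smul, one_mul]; simp [LB]
  | cons s ω ih =>
    rw [LB_cons, cs.wordProd_append, cs.wordProd_cons, mul_assoc, ih, ← mul_assoc, lb_prod,
      mul_smul, mul_assoc]

theorem LB_red (ω : List B) (x : W ⧸ P cs J) (h : cs.IsReduced ω) :
    cs.IsReduced (LB cs J ω x) := by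
  induction ω with
  | nil => exact h
  | cons s ω ih =>
    have h1 : cs.IsReduced ω := by simpa using h.drop 1
    have ih' := ih h1
    rw [LB_cons]
    rcases lb_spec cs J s (cs.wordProd ω • x) with ⟨h2, -⟩ | ⟨j, hj, h2, h3, h4⟩
    · rw [h2]
      exact ih'
    · rw [h2, List.cons_append, List.nil_append]
      by_contra hc
      have hlt : cs.length (cs.simple j * cs.wordProd (LB cs J ω x)) <
          cs.length (cs.wordProd (LB cs J ω x)) := by
        rcases cs.length_simple_mul (cs.wordProd (LB cs J ω x)) j with h5 | h5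
        · exact absurd (show cs.IsReduced (j :: LB cs J ω x) by
            unfold CoxeterSystem.IsReduced
            rw [cs.wordProd_cons, h5, ih'.eq, List.length_cons]) hc
        · omega
      have hP : cs.wordProd (LB cs J ω x) ∈ P cs J :=
        Q27.Cox.wordProd_mem_P (LB_mem cs J ω x)
      have hjP := Q27.Cox.simple_mem_P (cs := cs) hj
      -- `s` is a descent of `w * rp x`
      have e1 : cs.simple s * (cs.wordProd ω * rp cs J x) =
          rp cs J (cs.wordProd ω • x) * (cs.simple j * cs.wordProd (LB cs J ω x)) := by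
        rw [LB_prod, ← mul_assoc, h4, mul_assoc]
      have e2 : cs.length (cs.simple s * (cs.wordProd ω * rp cs J x)) <
          cs.length (cs.wordProd ω * rp cs J x) := by
        rw [e1, Q27.Cox.length_mul_R (rp_mem cs J _) (mul_mem hjP hP), LB_prod,
          Q27.Cox.length_mul_R (rp_mem cs J _) hP]
        omega
      rcases Q27.Cox.exchange_mul cs e2 with ⟨x', h6, h7, -⟩ | ⟨y', h6, h7⟩
      · rw [← mul_assoc] at h7
        have h8 := mul_right_cancel h7
        have h9 := h.eq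
        rw [cs.wordProd_cons, h8, List.length_cons] at h9
        rw [h1.eq] at h6
        omega
      · have h8 : y' = rp cs J x * ((cs.wordProd (LB cs J ω x))⁻¹ * cs.simple j *
            cs.wordProd (LB cs J ω x)) := by
          apply mul_left_cancel (a := cs.wordProd ω)
          rw [← h7, e1, ← mul_assoc (cs.wordProd ω), LB_prod]
          group
        have h9 := Q27.Cox.length_mul_R (rp_mem cs J x)
          (mul_mem (mul_mem (inv_mem hP) hjP) hP)
        rw [← h8] at h9
        omega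

theorem simple_smul_smul (s : B) (x : W ⧸ P cs J) :
    cs.simple s • cs.simple s • x = x := by
  rw [smul_smul, cs.simple_mul_simple_self, one_smul]

section rep

variable {H : Type} [Group H] (f : B → H)

/-- the product of the labels -/
noncomputable def lf (s : B) (x : W ⧸ P cs J) : H := ((lb cs J s x).map f).prod

/-- the action of a generator -/
noncomputable def Φ (s : B) : Equiv.Perm ((W ⧸ P cs J) × H) where
  toFun p := (cs.simple s • p.1, lf cs J f s p.1 * p.2)
  invFun p := (cs.simple s • p.1, (lf cs J f s (cs.simple s • p.1))⁻¹ * p.2)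
  left_inv p := by
    refine Prod.ext (simple_smul_smul cs J s p.1) ?_
    show (lf cs J f s (cs.simple s • cs.simple s • p.1))⁻¹ * (lf cs J f s p.1 * p.2) = p.2
    rw [simple_smul_smul, inv_mul_cancel_left]
  right_inv p := by
    refine Prod.ext (simple_smul_smul cs J s p.1) ?_
    show lf cs J f s (cs.simple s • p.1) * ((lf cs J f s (cs.simple s • p.1))⁻¹ * p.2) = p.2
    rw [mul_inv_cancel_left]

theorem Φ_apply (s : B) (x : W ⧸ P cs J) (h : H) :
    Φ cs J f s (x, h) = (cs.simple s • x, lf cs J f s x * h) := rfl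

theorem Φ_list (ω : List B) (x : W ⧸ P cs J) (h : H) : (ω.map (Φ cs J f)).prod (x, h) =
    (cs.wordProd ω • x, ((LB cs J ω x).map f).prod * h) := by
  induction ω with
  | nil =>
    rw [cs.wordProd_nil, one_smul]
    simp [LB]
  | cons s ω ih =>
    rw [List.map_cons, List.prod_cons, Equiv.Perm.mul_apply, ih, Φ_apply, LB_cons, cs.wordProd_cons,
      mul_smul, List.map_append, List.prod_append, mul_assoc]
    rfl

theorem lb_nil_smul {s : B} {x : W ⧸ P cs J} (h : lb cs J s x = []) :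
    lb cs J s (cs.simple s • x) = [] := by
  rcases lb_spec cs J s (cs.simple s • x) with ⟨h1, -⟩ | ⟨j, hj, -, h2, -⟩
  · exact h1
  · exfalso
    rw [simple_smul_smul] at h2
    rcases lb_spec cs J s x with ⟨-, h3⟩ | ⟨j, hj, h3, -, -⟩
    · rw [← h2] at h3
      have h4 : cs.simple s = 1 := mul_eq_right.1 h3.symm
      have h5 := cs.length_simple s
      rw [h4, cs.length_one] at h5
      exact zero_ne_one h5
    · rw [h] at h3
      exact List.cons_ne_nil _ _ h3.symm

end rep

section rep'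

variable {D : ShData B} (cs : CoxeterSystem D.M W) {H : Type} [Group H] (f : B → H)

theorem Φ_pow (hp : ∀ i ∈ J, f i ^ D.p i = 1) (s : B) : Φ cs J f s ^ D.p s = 1 := by
  ext1 ⟨x, h⟩
  rcases lb_spec cs J s x with ⟨h1, -⟩ | ⟨j, hj, h1, h2, h3⟩
  · have e1 : ∀ y (h : H), lb cs J s y = [] → Φ cs J f s (y, h) = (cs.simple s • y, h) := by
      intro y h hy
      rw [Φ_apply]
      unfold lf
      rw [hy]
      simp
    obtain ⟨k, hk⟩ := D.even s
    have e2 : ∀ k : ℕ, ((Φ cs J f s) ^ 2) ^ k = (Φ cs J f s) ^ (2 * k) := fun k => by rw [pow_mul]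
    have e3 : ((Φ cs J f s) ^ 2) (x, h) = (x, h) := by
      rw [pow_two, Equiv.Perm.mul_apply, e1 x h h1, e1 _ h (lb_nil_smul cs J h1),
        simple_smul_smul]
    rw [hk, ← two_mul, ← e2, Equiv.Perm.one_apply]
    exact Equiv.Perm.pow_apply_eq_self_of_apply_eq_self e3 k
  · have e1 : ∀ n : ℕ, ((Φ cs J f s) ^ n) (x, h) = (x, f j ^ n * h) := by
      intro n
      induction n with
      | zero => simp
      | succ n ih =>
        rw [pow_succ', Equiv.Perm.mul_apply, ih, Φ_apply, h2]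
        unfold lf
        rw [h1, pow_succ', mul_assoc]
        simp
    rw [e1, order_eq cs h3, hp j hj, one_mul, Equiv.Perm.one_apply]

variable [Fintype B] [DecidableEq B]

theorem Φ_rel (hf : ∀ i ∈ J, ∀ j ∈ J, alt (f i) (f j) (D.M i j) = alt (f j) (f i) (D.M i j))
    (s t : B) : alt (Φ cs J f s) (Φ cs J f t) (D.M s t) =
      alt (Φ cs J f t) (Φ cs J f s) (D.M s t) := by
  by_cases hst : s = t
  · rw [hst]
  by_cases h0 : D.M s t = 0
  · rw [h0, Pool.Agent.Helper741.alt_zero, Pool.Agent.Helper741.alt_zero]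
  rw [← aw_prod, ← aw_prod]
  ext1 ⟨x, h⟩
  have hr1 : cs.IsReduced (aw s t (D.M s t)) := isReduced_aw cs hst (Or.inr le_rfl)
  have hr2 : cs.IsReduced (aw t s (D.M s t)) :=
    isReduced_aw cs (Ne.symm hst) (Or.inr (by rw [D.M.symmetric t s]))
  have hw : cs.wordProd (aw s t (D.M s t)) = cs.wordProd (aw t s (D.M s t)) := by
    rw [wordProd_aw, wordProd_aw]
    exact simple_rel cs s t
  rw [Φ_list, Φ_list, hw]
  refine Prod.ext rfl ?_
  show ((LB cs J (aw s t (D.M s t)) x).map f).prod * h =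
    ((LB cs J (aw t s (D.M s t)) x).map f).prod * h
  congr 1
  refine matsumotoJ cs J f hf _ _ (LB_red cs J _ x hr1) (LB_red cs J _ x hr2) ?_
    (Q27.Cox.wordProd_mem_P (LB_mem cs J _ x))
  have e1 := LB_prod cs J (aw s t (D.M s t)) x
  have e2 := LB_prod cs J (aw t s (D.M s t)) x
  rw [hw, e2] at e1
  exact (mul_left_cancel e1).symm

/-- **the cocycle** -/
theorem exists_cocycle
    (hf : ∀ i ∈ J, ∀ j ∈ J, alt (f i) (f j) (D.M i j) = alt (f j) (f i) (D.M i j))
    (hp : ∀ i ∈ J, f i ^ D.p i = 1) :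
    ∃ c : Shep D → (W ⧸ P cs J) → H,
      (∀ g h x, c (g * h) x = c g (toCox cs h • x) * c h x) ∧
      (∀ s x, c (sg D s) x = 1 ∨ ∃ j ∈ J, c (sg D s) x = f j) ∧
      (∀ j ∈ J, c (sg D j) ((1 : W) : W ⧸ P cs J) = f j) := by
  obtain ⟨Ψ, hΨ⟩ : ∃ Ψ : Shep D →* Equiv.Perm ((W ⧸ P cs J) × H), ∀ s, Ψ (sg D s) = Φ cs J f s :=
    ⟨lift (Φ cs J f) (Φ_rel J cs f hf) (Φ_pow J cs f hp), lift_sg _ _ _⟩
  have key : ∀ (g : Shep D) (x : W ⧸ P cs J) (h : H),
      Ψ g (x, h) = (toCox cs g • x, (Ψ g (x, 1)).2 * h) := by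
    intro g
    induction g using induct with
    | h1 =>
      intro x h
      rw [map_one, map_one, one_smul]
      simp
    | hs s =>
      intro x h
      rw [hΨ, Φ_apply, Φ_apply, toCox_sg, mul_one]
    | hm a b ha hb =>
      intro x h
      rw [map_mul, map_mul, Equiv.Perm.mul_apply, Equiv.Perm.mul_apply, hb x h, hb x 1, ha _ _,
        mul_one, ha _ (Ψ b (x, 1)).2, mul_smul, mul_assoc]
    | hi a ha =>
      intro x h
      have h1 := ha (toCox cs a⁻¹ • x) ((Ψ a (toCox cs a⁻¹ • x, 1)).2⁻¹ * h)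
      rw [mul_inv_cancel_left, smul_smul, ← map_mul, mul_inv_cancel, map_one, one_smul] at h1
      have h2 := ha (toCox cs a⁻¹ • x) ((Ψ a (toCox cs a⁻¹ • x, 1)).2⁻¹ * 1)
      rw [mul_inv_cancel_left, smul_smul, ← map_mul, mul_inv_cancel, map_one, one_smul] at h2
      have h3 : Ψ a⁻¹ (x, h) = (toCox cs a⁻¹ • x, (Ψ a (toCox cs a⁻¹ • x, 1)).2⁻¹ * h) := by
        rw [map_inv, Equiv.Perm.inv_eq_iff_eq, h1]
      have h4 : Ψ a⁻¹ (x, 1) = (toCox cs a⁻¹ • x, (Ψ a (toCox cs a⁻¹ • x, 1)).2⁻¹ * 1) := by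
        rw [map_inv, Equiv.Perm.inv_eq_iff_eq, h2]
      rw [h3, h4, mul_one]
  refine ⟨fun g x => (Ψ g (x, 1)).2, ?_, ?_, ?_⟩
  · intro g h x
    show (Ψ (g * h) (x, 1)).2 = _
    rw [map_mul, Equiv.Perm.mul_apply, key h x 1, key g _ _, mul_one]
  · intro s x
    show (Ψ (sg D s) (x, 1)).2 = 1 ∨ ∃ j ∈ J, (Ψ (sg D s) (x, 1)).2 = f j
    rw [hΨ, Φ_apply]
    show lf cs J f s x * 1 = 1 ∨ ∃ j ∈ J, lf cs J f s x * 1 = f j
    rw [mul_one]
    unfold lf
    rcases lb_spec cs J s x with ⟨h1, -⟩ | ⟨j, hj, h1, -, -⟩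
    · left
      rw [h1]
      rfl
    · right
      refine ⟨j, hj, ?_⟩
      rw [h1]
      simp
  · intro j hj
    show (Ψ (sg D j) (((1 : W) : W ⧸ P cs J), 1)).2 = f j
    rw [hΨ, Φ_apply]
    show lf cs J f j _ * 1 = f j
    rw [mul_one]
    unfold lf
    have hr1 : rp cs J ((1 : W) : W ⧸ P cs J) = 1 := by
      refine rp_unique cs J ?_
      intro i _
      rw [one_mul, cs.length_one, cs.length_simple]
      exact one_pos
    have hP : cs.simple j • ((1 : W) : W ⧸ P cs J) = ((1 : W) : W ⧸ P cs J) := by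
      show ((cs.simple j * 1 : W) : W ⧸ P cs J) = _
      rw [QuotientGroup.eq, mul_one, mul_one]
      exact Subgroup.inv_mem _ (Q27.Cox.simple_mem_P hj)
    rcases lb_spec cs J j ((1 : W) : W ⧸ P cs J) with ⟨h1, h2⟩ | ⟨i, hi, h1, h2, h3⟩
    · exfalso
      rw [hP, hr1, mul_one] at h2
      have h4 := congrArg cs.length h2
      rw [cs.length_one, cs.length_simple] at h4
      exact zero_ne_one h4
    · rw [hr1, mul_one, one_mul] at h3
      rw [h1, Q27.Cox.simple_inj cs h3]
      simp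

end rep'

end Q9.FJA
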