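import Pool.Agent.Q182.FVProof
import Pool.Agent.Helper270.HNN

/-!
# HNN extensions and homomorphisms on a normal subgroup
-/

set_option autoImplicit false

namespace Q9.FJA

open Pool.Agent.Y110.FJ (ClosedE)
open Q182.FV Pool.Agent.Helper270.HNN HNNExtension

variable {C : ∀ (G : Type) [Group G], Prop}

theorem stab_mem (hC : ClosedE C) {M : Type} [Group M] {A A' : Subgroup M} {φ : A ≃* A'}
    (hM : C M) (v : Vert φ) : C (MulAction.stabilizer (HNNExtension M A A' φ) v) := by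
  obtain ⟨g, rfl⟩ := exists_vt v
  have h0 : C ↥(of.range : Subgroup (HNNExtension M A A' φ)) :=
    hC.base.of_injective _ _ (MonoidHom.ofInjective (of_injective (φ := φ))).symm.toMonoidHom
      (MonoidHom.ofInjective (of_injective (φ := φ))).symm.injective hM
  have h1 : ∀ x : MulAction.stabilizer (HNNExtension M A A' φ) (vt g : Vert φ),
      (MulAut.conj g⁻¹) (x : HNNExtension M A A' φ) ∈
        (of.range : Subgroup (HNNExtension M A A' φ)) := by
    rintro ⟨x, hx⟩
    rw [MulAction.mem_stabilizer_iff] at hx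
    have h2 : ((MulAut.conj g⁻¹) x) • (vt 1 : Vert φ) = vt 1 := by
      rw [MulAut.conj_apply, inv_inv, mul_smul, mul_smul, smul_vt g 1, mul_one, hx, smul_vt,
        inv_mul_cancel]
    obtain ⟨y, hy⟩ := (stab_one _).1 h2
    exact ⟨y, hy.symm⟩
  refine hC.base.of_injective _ _ (((MulAut.conj g⁻¹).toMonoidHom.comp
    (MulAction.stabilizer (HNNExtension M A A' φ) (vt g : Vert φ)).subtype).codRestrict _ h1) ?_ h0
  intro x y hxy
  have h2 : (MulAut.conj g⁻¹) (x : HNNExtension M A A' φ) = (MulAut.conj g⁻¹) y :=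
    congrArg Subtype.val hxy
  exact Subtype.ext ((MulAut.conj g⁻¹).injective h2)

/-- HNN extensions with a family of homomorphisms on a normal subgroup which separates the elements
of the associated subgroup -/
theorem hnn_rep (hC : ClosedE C) (H : Type) [Group H] (hH : C H) (M : Type) [Group M]
    (A A' : Subgroup M) (φ : A ≃* A') (hM : C M) (N : Subgroup (HNNExtension M A A' φ)) [N.Normal]
    (hQ : C (HNNExtension M A A' φ ⧸ N)) (R : Set (N →* H))
    (hsep : ∀ n : N, (∃ a ∈ A, (n : HNNExtension M A A' φ) = of a) → (∀ ψ ∈ R, ψ n = 1) → n = 1)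
    (hinv : ConjInvariant R) (hfin : LocallyFinitelyMany R) : C (HNNExtension M A A' φ) := by
  have hT := treeAct (G := M) (A := A) (B := A') (φ := φ)
  refine tree_rep hC H hH (HNNExtension M A A' φ) (Vert φ) (graph φ) hT.isTree
    (fun g v w => hT.adj g v w) (fun g v w => hT.noInv g v w) (fun v => stab_mem hC hM v) N hQ R
    ?_ hinv hfin
  intro n v w hvw hv hw hn
  obtain ⟨g, hg⟩ : ∃ g : HNNExtension M A A' φ,
      (n : HNNExtension M A A' φ) • (g • (vt 1 : Vert φ)) = g • vt 1 ∧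
      (n : HNNExtension M A A' φ) • (g • (vt t⁻¹ : Vert φ)) = g • vt t⁻¹ := by
    obtain ⟨g, ⟨h1, h2⟩ | ⟨h1, h2⟩⟩ := one_orbit hvw
    · exact ⟨g, by rw [h1, hv], by rw [h2, hw]⟩
    · exact ⟨g, by rw [h1, hw], by rw [h2, hv]⟩
  obtain ⟨m, hm⟩ : ∃ m : N, (m : HNNExtension M A A' φ) = g⁻¹ * n * g⁻¹⁻¹ :=
    ⟨⟨g⁻¹ * n * g⁻¹⁻¹, Subgroup.Normal.conj_mem inferInstance _ n.2 _⟩, rfl⟩
  have h1 : (m : HNNExtension M A A' φ) ∈ A.map of := by
    rw [← stab_edge (φ := φ), Subgroup.mem_inf, MulAction.mem_stabilizer_iff,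
      MulAction.mem_stabilizer_iff, hm, inv_inv, mul_smul, mul_smul, hg.1, mul_smul, mul_smul, hg.2,
      inv_smul_smul, inv_smul_smul]
    exact ⟨rfl, rfl⟩
  obtain ⟨a, ha, ham⟩ := h1
  have h2 : m = 1 := by
    refine hsep m ⟨a, ha, ham.symm⟩ ?_
    intro ψ hψ
    obtain ⟨χ, hχ, h, hh⟩ := hinv ψ hψ g⁻¹
    rw [hh n m hm, hn χ hχ, mul_one, mul_inv_cancel]
  have h3 : (n : HNNExtension M A A' φ) = g * m * g⁻¹ := by
    rw [hm]
    group
  apply Subtype.ext
  rw [h3, h2]
  simp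

end Q9.FJA
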