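import Pool.Agent.Q9.FJA.Red

/-!
# Artin groups reduce to their subgroups without infinity
-/

set_option autoImplicit false

namespace Q9.FJA

open Pool.Agent.Helper741 (alt map_alt)
open Pool.Agent.Y110.FJ (ClosedE)

variable {C : ∀ (G : Type) [Group G], Prop}

/-- reindexing -/
theorem amap_inj_of_inv {B B' : Type} (D : ShData B) (D' : ShData B') (ι : B → B') (κ : B' → B)
    (h : Emb D D' ι) (h' : Emb D' D κ) (he : ∀ s, κ (ι s) = s) :
    Function.Injective (amap D D' ι h) := by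
  intro x y hxy
  have h0 : Emb D D (fun s => κ (ι s)) := ⟨fun s t => by rw [he, he], fun s => by rw [he]⟩
  have h1 : ∀ z, amap D' D κ h' (amap D D' ι h z) = z := by
    intro z
    rw [amap_comp D D' D ι κ h h' h0]
    exact amap_id D h0 he z
  rw [← h1 x, hxy, h1]

/-- finite rank -/
theorem fin_mem (hC : ClosedE C) (hW : ∀ (n : ℕ) (M : CoxeterMatrix (Fin n)), C M.Group) :
    ∀ (n : ℕ) (B : Type) [Finite B] (D : ShData B), Nat.card B = n →
      (∀ (T : Type) [Finite T] (ι : T → B) (hι : Function.Injective ι),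
        (∀ a b, D.M (ι a) (ι b) ≠ 0) → C (Shep (res D ι hι))) → C (Shep D) := by
  classical
  intro n
  induction n using Nat.strong_induction_on with
  | _ n ih =>
    intro B _ D hn h
    by_cases h0 : ∃ v w, D.M v w = 0
    · obtain ⟨v, w, h0⟩ := h0
      have hvw : v ≠ w := by
        rintro rfl
        rw [D.M.diagonal] at h0
        exact one_ne_zero h0
      have key : ∀ u : B, C (Shep (sub D (fun b => b ≠ u))) := by
        intro u
        refine ih (Nat.card {b : B // b ≠ u}) ?_ _ _ rfl ?_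
        · rw [← hn]
          have := Fintype.ofFinite B
          rw [Nat.card_eq_fintype_card, Nat.card_eq_fintype_card]
          exact Fintype.card_subtype_lt (x := u) (fun h' => h' rfl)
        · intro T _ ι hι h1
          exact h T (fun a => (ι a).1) (Subtype.val_injective.comp hι) h1
      exact step_mem hC hW D v w hvw h0 (key v) (key w)
    · push Not at h0
      have h1 := h B (fun b => b) (fun _ _ h => h) (fun a b => h0 a b)
      have e1 : Emb D (res D (fun b => b) (fun _ _ h => h)) (fun b => b) :=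
        ⟨fun _ _ => rfl, fun _ => rfl⟩
      exact hC.base.of_injective _ _ (amap D (res D (fun b => b) (fun _ _ h => h)) (fun b => b) e1)
        (amap_inj_of_inv D _ (fun b => b) (fun b => b) e1 (res_emb D _ _) (fun _ => rfl)) h1

section inf

variable {B : Type} (D : ShData B)

/-- the data of a finite subset -/
abbrev fsub (T : Finset B) : ShData {b : B // b ∈ T} := sub D (fun b => b ∈ T)

/-- finite support -/
theorem supp_fin (x : Shep D) : ∃ T : Finset B, x ∈ (pmap D _ (val_inj (fun b => b ∈ T))).range := by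
  classical
  have hmono : ∀ {T T' : Finset B}, T ⊆ T' → (pmap D _ (val_inj (fun b => b ∈ T))).range ≤
      (pmap D _ (val_inj (fun b => b ∈ T'))).range := by
    rintro T T' h _ ⟨y, rfl⟩
    exact ⟨smap D (fun b hb => h hb) y, pmap_smap D (fun b hb => h hb) y⟩
  induction x using induct with
  | h1 => exact ⟨∅, Subgroup.one_mem _⟩
  | hs s => exact ⟨{s}, ⟨sg _ ⟨s, by simp⟩, pmap_sg _ _ _ _⟩⟩
  | hm a b ha hb =>
    obtain ⟨S, hS⟩ := ha
    obtain ⟨T, hT⟩ := hb
    exact ⟨S ∪ T, Subgroup.mul_mem _ (hmono Finset.subset_union_left hS)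
      (hmono Finset.subset_union_right hT)⟩
  | hi a ha =>
    obtain ⟨S, hS⟩ := ha
    exact ⟨S, Subgroup.inv_mem _ hS⟩

/-- families which are eventually trivial -/
def evn : Subgroup (∀ T : Finset B, Shep (fsub D T)) where
  carrier := {f | ∃ T₀ : Finset B, ∀ T, T₀ ⊆ T → f T = 1}
  one_mem' := ⟨∅, fun _ _ => rfl⟩
  mul_mem' := by
    classical
    rintro f g ⟨T₁, h₁⟩ ⟨T₂, h₂⟩
    refine ⟨T₁ ∪ T₂, fun T hT => ?_⟩
    rw [Pi.mul_apply, h₁ T (Finset.union_subset_left hT), h₂ T (Finset.union_subset_right hT),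
      mul_one]
  inv_mem' := by
    rintro f ⟨T₁, h₁⟩
    refine ⟨T₁, fun T hT => ?_⟩
    rw [Pi.inv_apply, h₁ T hT, inv_one]

instance : (evn D).Normal := by
  constructor
  rintro f ⟨T₁, h₁⟩ g
  refine ⟨T₁, fun T hT => ?_⟩
  rw [Pi.mul_apply, Pi.mul_apply, Pi.inv_apply, h₁ T hT, mul_one, mul_inv_cancel]

/-- the homomorphism to the germs -/
theorem germ_hom : ∃ Φ : Shep D →* (∀ T : Finset B, Shep (fsub D T)) ⧸ evn D,
    ∀ (A : Type) [Finite A] (ι : A → B) (hι : Function.Injective ι) (y : Shep (res D ι hι)),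
      Φ (pmap D ι hι y) = 1 → y = 1 := by
  classical
  obtain ⟨f, hf⟩ : ∃ f : B → (∀ T : Finset B, Shep (fsub D T)),
      ∀ b (T : Finset B) (h : b ∈ T), f b T = sg (fsub D T) ⟨b, h⟩ :=
    ⟨fun b T => if h : b ∈ T then sg (fsub D T) ⟨b, h⟩ else 1, fun b T h => dif_pos h⟩
  have halt : ∀ (x y : ∀ T : Finset B, Shep (fsub D T)) (m : ℕ) (T : Finset B),
      alt x y m T = alt (x T) (y T) m := fun x y m T =>
    map_alt (Pi.evalMonoidHom (fun T : Finset B => Shep (fsub D T)) T) x y m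
  obtain ⟨Φ, hΦ⟩ : ∃ Φ : Shep D →* (∀ T : Finset B, Shep (fsub D T)) ⧸ evn D,
      ∀ b, Φ (sg D b) = QuotientGroup.mk' (evn D) (f b) := by
    refine ⟨lift (fun b => QuotientGroup.mk' (evn D) (f b)) ?_ ?_, lift_sg _ _ _⟩
    · intro s t
      rw [← map_alt, ← map_alt]
      apply (QuotientGroup.eq (s := evn D)).2
      refine ⟨{s, t}, fun T hT => ?_⟩
      have hs : s ∈ T := hT (by simp)
      have ht : t ∈ T := hT (by simp)
      rw [Pi.mul_apply, Pi.inv_apply, halt, halt, hf s T hs, hf t T ht]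
      have h1 := sg_rel (fsub D T) ⟨s, hs⟩ ⟨t, ht⟩
      rw [sub_m] at h1
      rw [h1, inv_mul_cancel]
    · intro s
      rw [← map_pow]
      refine (QuotientGroup.eq_one_iff _).2 ⟨{s}, fun T hT => ?_⟩
      have hs : s ∈ T := hT (by simp)
      rw [Pi.pow_apply, hf s T hs]
      exact sg_pow (fsub D T) ⟨s, hs⟩
  refine ⟨Φ, ?_⟩
  intro A _ ι hι y hy
  -- the inclusions in finite subsets
  have hex : ∀ T : Finset B, ∃ φ : Shep (res D ι hι) →* Shep (fsub D T),
      ∀ h : ∀ a, ι a ∈ T, (∀ a, φ (sg _ a) = sg (fsub D T) ⟨ι a, h a⟩) ∧ Function.Injective φ := by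
    intro T
    by_cases h : ∀ a, ι a ∈ T
    · have hinj : Function.Injective (fun a => (⟨ι a, h a⟩ : {b : B // b ∈ T})) := by
        intro a b hab
        exact hι (congrArg Subtype.val hab)
      have := Fintype.ofFinite {b : B // b ∈ T}
      exact ⟨pmap (fsub D T) (fun a => ⟨ι a, h a⟩) hinj,
        fun _ => ⟨pmap_sg (fsub D T) _ hinj, pmap_inj_fin _ hinj⟩⟩
    · exact ⟨1, fun h' => absurd h' h⟩
  choose φ hφ using hex
  have := Fintype.ofFinite A
  let Ψ : Shep (res D ι hι) →* (∀ T : Finset B, Shep (fsub D T)) ⧸ evn D :=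
    (QuotientGroup.mk' (evn D)).comp (MonoidHom.pi φ)
  have hmem : ∀ (T : Finset B), Finset.univ.image ι ⊆ T → ∀ a, ι a ∈ T := fun T hT a =>
    hT (Finset.mem_image_of_mem _ (Finset.mem_univ a))
  have hΨ : Φ.comp (pmap D ι hι) = Ψ := by
    apply hom_ext
    intro a
    rw [MonoidHom.comp_apply, pmap_sg, hΦ]
    show _ = QuotientGroup.mk' (evn D) (fun T => φ T (sg _ a))
    apply (QuotientGroup.eq (s := evn D)).2
    refine ⟨Finset.univ.image ι, fun T hT => ?_⟩
    rw [Pi.mul_apply, Pi.inv_apply, (hφ T (hmem T hT)).1, hf (ι a) T (hmem T hT a), inv_mul_cancel]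
  have h1 : Ψ y = 1 := by
    rw [← hΨ, MonoidHom.comp_apply, hy]
  have h2 : (fun T => φ T y) ∈ evn D := (QuotientGroup.eq_one_iff _).1 h1
  obtain ⟨T₁, hT₁⟩ := h2
  have h3 := hT₁ (Finset.univ.image ι ∪ T₁) Finset.subset_union_right
  exact (hφ _ (hmem _ Finset.subset_union_left)).2 (h3.trans (map_one _).symm)

theorem pmap_pmap {A A' : Type} (κ : A' → A) (hκ : Function.Injective κ) (ι : A → B)
    (hι : Function.Injective ι) :
    ∃ e : Shep (res (res D ι hι) κ hκ) →* Shep (res D (fun a => ι (κ a)) (hι.comp hκ)),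
      Function.Injective e ∧ ∀ z, pmap D (fun a => ι (κ a)) (hι.comp hκ) (e z) =
        pmap D ι hι (pmap (res D ι hι) κ hκ z) := by
  have e1 : Emb (res (res D ι hι) κ hκ) (res D (fun a => ι (κ a)) (hι.comp hκ)) (fun a => a) :=
    ⟨fun _ _ => rfl, fun _ => rfl⟩
  have e2 : Emb (res D (fun a => ι (κ a)) (hι.comp hκ)) (res (res D ι hι) κ hκ) (fun a => a) :=
    ⟨fun _ _ => rfl, fun _ => rfl⟩
  refine ⟨amap _ _ _ e1, amap_inj_of_inv _ _ _ _ e1 e2 (fun _ => rfl), ?_⟩
  intro z
  have h2 : (pmap D (fun a => ι (κ a)) (hι.comp hκ)).comp (amap _ _ _ e1) =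
      (pmap D ι hι).comp (pmap (res D ι hι) κ hκ) := by
    apply hom_ext
    intro s
    rw [MonoidHom.comp_apply, MonoidHom.comp_apply, amap_sg, pmap_sg, pmap_sg, pmap_sg]
  exact DFunLike.congr_fun h2 z

/-- **parabolic subgroups** -/
theorem pmap_inj {A : Type} (ι : A → B) (hι : Function.Injective ι) :
    Function.Injective (pmap D ι hι) := by
  obtain ⟨Φ, hΦ⟩ := germ_hom D
  rw [injective_iff_map_eq_one]
  intro y hy
  obtain ⟨T, z, rfl⟩ := supp_fin (res D ι hι) y
  obtain ⟨e, he, he'⟩ := pmap_pmap D (fun a : {a : A // a ∈ T} => (a : A))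
    (val_inj (fun b => b ∈ T)) ι hι
  have h2 := hΦ {a : A // a ∈ T} _ _ (e z) (by rw [he', hy, map_one])
  have h3 : z = 1 := he (h2.trans (map_one e).symm)
  rw [h3, map_one]

/-- **reduction** -/
theorem shep_mem (hC : ClosedE C) (hW : ∀ (n : ℕ) (M : CoxeterMatrix (Fin n)), C M.Group)
    (h : ∀ T : Finset B, (∀ a ∈ T, ∀ b ∈ T, D.M a b ≠ 0) → C (Shep (fsub D T))) :
    C (Shep D) := by
  classical
  have hfin : ∀ T : Finset B, C (Shep (fsub D T)) := by
    intro T
    refine fin_mem hC hW _ _ _ rfl ?_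
    intro A _ ι hι h0
    have := Fintype.ofFinite A
    -- the image
    obtain ⟨U, hU⟩ : ∃ U : Finset B, U = Finset.univ.image (fun a => (ι a).1) := ⟨_, rfl⟩
    have hm : ∀ a, (ι a).1 ∈ U := by
      intro a
      rw [hU]
      exact Finset.mem_image_of_mem _ (Finset.mem_univ a)
    have hUC : C (Shep (fsub D U)) := by
      refine h U ?_
      intro a ha b hb
      rw [hU, Finset.mem_image] at ha hb
      obtain ⟨a, -, rfl⟩ := ha
      obtain ⟨b, -, rfl⟩ := hb
      exact h0 a b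
    have hinj : Function.Injective (fun a => (⟨(ι a).1, hm a⟩ : {b : B // b ∈ U})) := by
      intro a b hab
      have h1 : (⟨(ι a).1, hm a⟩ : {b : B // b ∈ U}).1 = (⟨(ι b).1, hm b⟩ : {b : B // b ∈ U}).1 :=
        congrArg (fun x : {b : B // b ∈ U} => x.1) hab
      exact hι (Subtype.ext h1)
    have := Fintype.ofFinite {b : B // b ∈ U}
    exact hC.base.of_injective _ _ (pmap (fsub D U) (fun a => ⟨(ι a).1, hm a⟩) hinj)
      (pmap_inj_fin _ hinj) hUC
  refine Pool.Agent.Y430.SS.of_directed hC.base _ (Finset B) (fun i j => ?_)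
    (fun T => (pmap D _ (val_inj (fun b => b ∈ T))).range) (fun S T h => ?_) (supp_fin D)
    (fun T => ?_)
  · exact ⟨i ∪ j, Finset.subset_union_left, Finset.subset_union_right⟩
  · rintro _ ⟨y, rfl⟩
    exact ⟨smap D (fun b hb => h hb) y, pmap_smap D (fun b hb => h hb) y⟩
  · exact hC.base.of_injective _ _ (MonoidHom.ofInjective (pmap_inj D _
      (val_inj (fun b => b ∈ T)))).symm.toMonoidHom (MonoidHom.ofInjective (pmap_inj D _
      (val_inj (fun b => b ∈ T)))).symm.injective (hfin T)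

theorem shep_mem_iff (hC : ClosedE C) (hW : ∀ (n : ℕ) (M : CoxeterMatrix (Fin n)), C M.Group) :
    C (Shep D) ↔ ∀ T : Finset B, (∀ a ∈ T, ∀ b ∈ T, D.M a b ≠ 0) → C (Shep (fsub D T)) :=
  ⟨fun h _ _ => hC.base.of_injective _ _ _ (pmap_inj D _ (val_inj _)) h, shep_mem D hC hW⟩

end inf

end Q9.FJA
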