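import Pool.Agent.Q9.FJA.Inf
import Pool.Agent.Q9.FJP.Ker

/-!
# Extensions whose kernel is an Artin group, permuted by the group
-/

set_option autoImplicit false

namespace Q9.FJA

open Pool.Agent.Helper741 (alt map_alt)
open Pool.Agent.Y110.FJ (ClosedE Realized)
open Q30.FJ (ClosedOver RealizedAut FiniteAt)
open Q9.FJP (Good cl per eqv tm Tq tm_eq tm_surj partner move EvenRel ER Clq lift_clq exists_rot
  exists_good cl_zpow cl_symm zadd)

variable {C : ∀ (G : Type) [Group G], Prop} {B : Type} (D : ShData B)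

/-- auxiliary relations -/
def ev0 : EvenRel B (Multiplicative ℤ) where
  R u v := {r | u ≠ v ∧ D.M u v ≠ 0 ∧ r = 1}
  irrefl v := by
    ext r
    simp
  fst u v r hr := by
    obtain ⟨-, -, rfl⟩ := hr
    exact map_one _
  snd u v r hr := by
    obtain ⟨-, -, rfl⟩ := hr
    exact map_one _

section quot

variable {D} {τ : Equiv.Perm B}

/-- the permutation preserves the data -/
structure Pres (D : ShData B) (τ : Equiv.Perm B) : Prop where
  m : ∀ u v, D.M (τ u) (τ v) = D.M u v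
  p : ∀ u, D.p (τ u) = D.p u

theorem Pres.mz (hτ : Pres D τ) (j : ℤ) (u v : B) : D.M ((τ ^ j) u) ((τ ^ j) v) = D.M u v := by
  have h1 : ∀ (k : ℕ) (u v : B), D.M ((τ ^ k) u) ((τ ^ k) v) = D.M u v := by
    intro k
    induction k with
    | zero => intro u v; simp
    | succ k ih =>
      intro u v
      rw [pow_succ, Equiv.Perm.mul_apply, Equiv.Perm.mul_apply, ih, hτ.m]
  obtain ⟨k, rfl | rfl⟩ := j.eq_nat_or_neg
  · rw [zpow_natCast]
    exact h1 k u v
  · have h2 := h1 k ((τ ^ (-(k : ℤ))) u) ((τ ^ (-(k : ℤ))) v)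
    rw [← h2, ← zpow_natCast, ← zadd, ← zadd, add_neg_cancel, zpow_zero, Equiv.Perm.one_apply,
      Equiv.Perm.one_apply]

theorem Pres.pz (hτ : Pres D τ) (j : ℤ) (u : B) : D.p ((τ ^ j) u) = D.p u := by
  have h1 : ∀ (k : ℕ) (u : B), D.p ((τ ^ k) u) = D.p u := by
    intro k
    induction k with
    | zero => intro u; simp
    | succ k ih =>
      intro u
      rw [pow_succ, Equiv.Perm.mul_apply, ih, hτ.p]
  obtain ⟨k, rfl | rfl⟩ := j.eq_nat_or_neg
  · rw [zpow_natCast]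
    exact h1 k u
  · have h2 := h1 k ((τ ^ (-(k : ℤ))) u)
    rw [← h2, ← zpow_natCast, ← zadd, add_neg_cancel, zpow_zero, Equiv.Perm.one_apply]

/-- the labels are well defined -/
theorem lab_unique (hτ : Pres D τ) {F : Finset B} {n : ℕ} (hn : Good τ F n) {u v a b : B}
    (h : cl τ F u v) (h' : cl τ F a b) (hu : tm τ n u = tm τ n a) (hv : tm τ n v = tm τ n b) :
    D.M u v = D.M a b := by
  obtain ⟨k, hk1, hk2, hk3⟩ := move hu h'
  obtain ⟨j, hj1, hj2⟩ := partner hn h hk2 ((tm_eq τ).1 (hk3.trans hv.symm).symm)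
  have h1 : D.M a b = D.M u ((τ ^ k) b) := by
    rw [← hk1, hτ.mz]
  rw [h1, ← hj2]
  conv_rhs => rw [← hj1]
  rw [hτ.mz]

/-- related representatives -/
def Rel (τ : Equiv.Perm B) (F : Finset B) (n : ℕ) (s t : Tq τ n) : Prop :=
  ∃ u v, tm τ n u = s ∧ tm τ n v = t ∧ cl τ F u v

theorem Rel.symm {F : Finset B} {n : ℕ} {s t : Tq τ n} (h : Rel τ F n s t) : Rel τ F n t s := by
  obtain ⟨u, v, h1, h2, h3⟩ := h
  exact ⟨v, u, h2, h1, cl_symm h3⟩

/-- the data of the finite cyclic quotient -/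
theorem exists_quot (hτ : Pres D τ) {F : Finset B} {n : ℕ} (hn : Good τ F n) :
    ∃ D' : ShData (Tq τ n), (∀ u v, cl τ F u v → D'.M (tm τ n u) (tm τ n v) = D.M u v) ∧
      (∀ s t, s ≠ t → ¬ Rel τ F n s t → D'.M s t = 0) ∧ ∀ u, D'.p (tm τ n u) = D.p u := by
  classical
  have hex : ∀ s t : Tq τ n, ∃ m : ℕ, (s = t → m = 1) ∧
      (s ≠ t → ∀ u v, tm τ n u = s → tm τ n v = t → cl τ F u v → m = D.M u v) ∧
      (s ≠ t → ¬ Rel τ F n s t → m = 0) := by
    intro s t
    by_cases hst : s = t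
    · exact ⟨1, fun _ => rfl, fun h => absurd hst h, fun h => absurd hst h⟩
    · by_cases hr : Rel τ F n s t
      · obtain ⟨a, b, ha, hb, hab⟩ := hr
        refine ⟨D.M a b, fun h => absurd h hst, ?_, fun _ h => absurd ⟨a, b, ha, hb, hab⟩ h⟩
        intro _ u v hu hv huv
        exact lab_unique hτ hn hab huv (ha.trans hu.symm) (hb.trans hv.symm)
      · refine ⟨0, fun h => absurd h hst, ?_, fun _ _ => rfl⟩
        intro _ u v hu hv huv
        exact absurd ⟨u, v, hu, hv, huv⟩ hr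
  choose m hm1 hm2 hm3 using hex
  have hp : ∀ s : Tq τ n, ∃ p : ℕ, ∀ u, tm τ n u = s → D.p u = p := by
    intro s
    obtain ⟨a, ha⟩ := tm_surj τ s
    refine ⟨D.p a, fun u hu => ?_⟩
    obtain ⟨k, hk⟩ := (tm_eq τ).1 (ha.trans hu.symm)
    rw [← hk, hτ.pz]
  choose p hp using hp
  have hsymm : ∀ s t, m s t = m t s := by
    intro s t
    by_cases hst : s = t
    · rw [hm1 s t hst, hm1 t s hst.symm]
    · by_cases hr : Rel τ F n s t
      · obtain ⟨a, b, ha, hb, hab⟩ := hr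
        rw [hm2 s t hst a b ha hb hab, hm2 t s (Ne.symm hst) b a hb ha (cl_symm hab),
          D.M.symmetric]
      · rw [hm3 s t hst hr, hm3 t s (Ne.symm hst) (fun h => hr h.symm)]
  let M' : CoxeterMatrix (Tq τ n) :=
    { M := fun s t => m s t
      isSymm := by
        ext s t
        exact hsymm t s
      diagonal := fun s => hm1 s s rfl
      off_diagonal := by
        intro s t hst
        by_cases hr : Rel τ F n s t
        · obtain ⟨a, b, ha, hb, hab⟩ := hr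
          rw [hm2 s t hst a b ha hb hab]
          refine D.M.off_diagonal _ _ ?_
          rintro rfl
          exact hst (ha.symm.trans hb)
        · rw [hm3 s t hst hr]
          exact zero_ne_one }
  have hM' : ∀ s t, M' s t = m s t := fun _ _ => rfl
  refine ⟨⟨M', p, ?_, ?_⟩, ?_, ?_, ?_⟩
  · intro s
    obtain ⟨a, ha⟩ := tm_surj τ s
    rw [← hp s a ha]
    exact D.even a
  · intro s t h
    by_cases hst : s = t
    · rw [hst]
    · rw [hM'] at h
      by_cases hr : Rel τ F n s t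
      · obtain ⟨a, b, ha, hb, hab⟩ := hr
        rw [hm2 s t hst a b ha hb hab] at h
        rw [← hp s a ha, ← hp t b hb]
        exact D.odd a b h
      · rw [hm3 s t hst hr] at h
        exact absurd h (by decide)
  · intro u v huv
    show m (tm τ n u) (tm τ n v) = D.M u v
    by_cases hst : tm τ n u = tm τ n v
    · have h1 : cl τ F u u := by
        obtain ⟨i, hi, -⟩ := huv
        exact ⟨i, hi, hi⟩
      obtain ⟨j, hj, hj'⟩ := partner hn h1 huv ((tm_eq τ).1 hst)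
      rw [hj] at hj'
      subst hj'
      rw [hm1 _ _ rfl, D.M.diagonal]
    · exact hm2 _ _ hst u v rfl rfl huv
  · intro s t hst hr
    exact hm3 s t hst hr
  · intro u
    exact (hp _ u rfl).symm

/-- the finite cyclic quotient is in the class -/
theorem quot_mem (hC : ClosedE C) (hW : ∀ (n : ℕ) (M : CoxeterMatrix (Fin n)), C M.Group)
    (hcl : ∀ T : Finset B, (∀ a ∈ T, ∀ b ∈ T, D.M a b ≠ 0) → C (Shep (fsub D T)))
    {F : Finset B} {n : ℕ} (hn : Good τ F n) (D' : ShData (Tq τ n))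
    (h1 : ∀ u v, cl τ F u v → D'.M (tm τ n u) (tm τ n v) = D.M u v)
    (h2 : ∀ s t, s ≠ t → ¬ Rel τ F n s t → D'.M s t = 0) (h3 : ∀ u, D'.p (tm τ n u) = D.p u) :
    C (Shep D') := by
  classical
  refine shep_mem D' hC hW ?_
  intro σ hσ
  have hclq : Clq (ER (ev0 D) τ F n hn) σ := by
    intro s hs t ht hst
    have hr : Rel τ F n s t := by
      by_contra hr
      exact hσ s hs t ht (h2 s t hst hr)
    obtain ⟨a, b, ha, hb, hab⟩ := hr
    refine Or.inl ⟨1, a, b, ha, hb, hab, ?_, ?_, rfl⟩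
    · rintro rfl
      exact hst (ha.symm.trans hb)
    · rw [← h1 a b hab, ha, hb]
      exact hσ s hs t ht
  obtain ⟨L, hL, hL2⟩ := lift_clq (ev0 D) hn σ hclq
  have hM : ∀ s ∈ σ, ∀ t ∈ σ, D.M (L s) (L t) = D'.M s t := by
    intro s hs t ht
    by_cases hst : s = t
    · subst hst
      rw [D.M.diagonal, D'.M.diagonal]
    · have := h1 _ _ (hL2 s hs t ht hst)
      rw [hL, hL] at this
      exact this.symm
  have hU : C (Shep (fsub D (σ.image L))) := by
    refine hcl _ ?_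
    intro a ha b hb
    rw [Finset.mem_image] at ha hb
    obtain ⟨s, hs, rfl⟩ := ha
    obtain ⟨t, ht, rfl⟩ := hb
    rw [hM s hs t ht]
    exact hσ s hs t ht
  have hmem : ∀ s : {s // s ∈ σ}, L s ∈ σ.image L := fun s => Finset.mem_image_of_mem _ s.2
  have hmem' : ∀ u : {u // u ∈ σ.image L}, tm τ n u ∈ σ := by
    rintro ⟨u, hu⟩
    rw [Finset.mem_image] at hu
    obtain ⟨s, hs, rfl⟩ := hu
    rw [hL]
    exact hs
  have hback : ∀ u : {u // u ∈ σ.image L}, L (tm τ n u) = u := by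
    rintro ⟨u, hu⟩
    rw [Finset.mem_image] at hu
    obtain ⟨s, hs, rfl⟩ := hu
    rw [hL]
  have e1 : Emb (fsub D' σ) (fsub D (σ.image L)) (fun s => ⟨L s, hmem s⟩) := by
    refine ⟨fun s t => hM s s.2 t t.2, fun s => ?_⟩
    show D.p (L s) = D'.p s
    rw [← h3, hL]
  have e2 : Emb (fsub D (σ.image L)) (fsub D' σ) (fun u => ⟨tm τ n u, hmem' u⟩) := by
    refine ⟨fun u v => ?_, fun u => ?_⟩
    · show D'.M (tm τ n u) (tm τ n v) = D.M u v
      rw [← hM _ (hmem' u) _ (hmem' v), hback, hback]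
    · exact h3 u
  exact hC.base.of_injective _ _ (amap _ _ _ e1)
    (amap_inj_of_inv _ _ _ _ e1 e2 (fun s => Subtype.ext (hL s))) hU

end quot

/-- automorphisms -/
theorem sh_aut {T : Type} (D' : ShData T) (ρ : Equiv.Perm T) (hρ : Pres D' ρ) :
    ∃ σ : MulAut (Shep D'), ∀ v, σ (sg D' v) = sg D' (ρ v) := by
  have e1 : Emb D' D' ρ := ⟨hρ.m, hρ.p⟩
  have e2 : Emb D' D' ρ.symm := by
    refine ⟨fun u v => ?_, fun u => ?_⟩
    · have h1 := hρ.m (ρ.symm u) (ρ.symm v)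
      rw [ρ.apply_symm_apply, ρ.apply_symm_apply] at h1
      exact h1.symm
    · have h1 := hρ.p (ρ.symm u)
      rw [ρ.apply_symm_apply] at h1
      exact h1.symm
  have h1 : (amap D' D' ρ.symm e2).comp (amap D' D' ρ e1) = MonoidHom.id _ := by
    apply hom_ext
    intro v
    rw [MonoidHom.comp_apply, amap_sg, amap_sg, ρ.symm_apply_apply, MonoidHom.id_apply]
  have h2 : (amap D' D' ρ e1).comp (amap D' D' ρ.symm e2) = MonoidHom.id _ := by
    apply hom_ext
    intro v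
    rw [MonoidHom.comp_apply, amap_sg, amap_sg, ρ.apply_symm_apply, MonoidHom.id_apply]
  exact ⟨MonoidHom.toMulEquiv _ _ h1 h2, amap_sg D' D' ρ e1⟩

/-- **Artin and Shephard kernels** -/
theorem shep_kernel {𝒟 : ∀ (G : Type) [Group G], Prop} (hC : ClosedE C) (hD : ClosedOver C 𝒟)
    (hW : ∀ (n : ℕ) (M : CoxeterMatrix (Fin n)), C M.Group)
    (hcl : ∀ T : Finset B, (∀ a ∈ T, ∀ b ∈ T, D.M a b ≠ 0) → C (Shep (fsub D T)))
    (G : Type) [Group G] (N : Subgroup G) [N.Normal] (hQ : 𝒟 (G ⧸ N)) (e : Shep D ≃* N)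
    (h : ∀ (g : G) (F : Finset B), ∃ (τ : Equiv.Perm B) (n : N), Pres D τ ∧
      ∀ v ∈ F, ((n : G) * g) * (e (sg D v) : G) * ((n : G) * g)⁻¹ = e (sg D (τ v))) : 𝒟 G := by
  classical
  refine Q30.FJ.crit_over hC hD G N hQ ?_
  intro g E₀ hE hEN
  refine Or.inr (Or.inl ?_)
  -- supports
  have hmono : ∀ {T T' : Finset B}, T ⊆ T' → (pmap D _ (val_inj (fun b => b ∈ T))).range ≤
      (pmap D _ (val_inj (fun b => b ∈ T'))).range := by
    rintro T T' h _ ⟨y, rfl⟩
    exact ⟨smap D (fun b hb => h hb) y, pmap_smap D (fun b hb => h hb) y⟩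
  have hsx : ∀ x : G, ∃ S : Finset B, ∀ hx : x ∈ N, e.symm ⟨x, hx⟩ ∈
      (pmap D _ (val_inj (fun b => b ∈ S))).range := by
    intro x
    by_cases hx : x ∈ N
    · obtain ⟨S, hS⟩ := supp_fin D (e.symm ⟨x, hx⟩)
      exact ⟨S, fun _ => hS⟩
    · exact ⟨∅, fun h' => absurd h' hx⟩
  choose supp hsupp using hsx
  obtain ⟨S, hS⟩ : ∃ S : Finset B, S = hE.toFinset.biUnion supp := ⟨_, rfl⟩
  have hSx : ∀ x (hx : x ∈ E₀), e.symm ⟨x, hEN hx⟩ ∈
      (pmap D _ (val_inj (fun b => b ∈ S))).range := by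
    intro x hx
    refine hmono ?_ (hsupp x (hEN hx))
    rw [hS]
    exact Finset.subset_biUnion_of_mem supp (hE.mem_toFinset.2 hx)
  obtain ⟨τ, n, hτ, hn⟩ := h g S
  obtain ⟨m, hm⟩ : ∃ m : Shep D, m = e.symm n := ⟨_, rfl⟩
  obtain ⟨U, hU⟩ := supp_fin D m
  obtain ⟨F, hF⟩ : ∃ F : Finset B, F = S ∪ S.image τ ∪ U := ⟨_, rfl⟩
  have hSF : S ⊆ F := by
    intro v hv
    rw [hF, Finset.mem_union, Finset.mem_union]
    exact Or.inl (Or.inl hv)
  have hτF : ∀ v ∈ S, τ v ∈ F := by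
    intro v hv
    rw [hF]
    simp only [Finset.mem_union, Finset.mem_image]
    exact Or.inl (Or.inr ⟨v, hv, rfl⟩)
  obtain ⟨m₀, hm₀⟩ : ∃ m₀, pmap D _ (val_inj (fun b => b ∈ F)) m₀ = m := by
    refine hmono ?_ hU
    intro v hv
    rw [hF, Finset.mem_union]
    exact Or.inr hv
  obtain ⟨k, hk⟩ := exists_good τ F
  have hclF : ∀ u ∈ F, ∀ v ∈ F, cl τ F u v := by
    intro u hu v hv
    exact ⟨0, by simpa using hu, by simpa using hv⟩
  obtain ⟨D', h1, h2, h3⟩ := exists_quot hτ hk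
  have hinjF : ∀ u ∈ F, ∀ v ∈ F, tm τ k u = tm τ k v → u = v := by
    intro u hu v hv huv
    obtain ⟨j, hj, hj'⟩ := partner hk (hclF u hu u hu) (hclF u hu v hv) ((tm_eq τ).1 huv)
    exact hj.symm.trans hj'
  -- the embedding of the finite part
  have eJ : Emb (fsub D F) D' (fun u => tm τ k u) :=
    ⟨fun u v => h1 u v (hclF u u.2 v v.2), fun u => h3 u⟩
  have hιinj : Function.Injective (fun u : {u // u ∈ F} => tm τ k u) := by
    intro u v huv
    exact Subtype.ext (hinjF u u.2 v v.2 huv)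
  obtain ⟨J, hJ, hJinj⟩ : ∃ J : Shep (fsub D F) →* Shep D',
      (∀ u, J (sg _ u) = sg D' (tm τ k u)) ∧ Function.Injective J := by
    have e1 : Emb (fsub D F) (res D' _ hιinj) (fun u => u) := emb_res _ hιinj _ eJ
    have e2 : Emb (res D' _ hιinj) (fsub D F) (fun u => u) :=
      ⟨fun u v => (e1.m u v).symm, fun u => (e1.p u).symm⟩
    refine ⟨(pmap D' _ hιinj).comp (amap _ _ _ e1), fun u => ?_,
      (pmap_inj D' _ hιinj).comp (amap_inj_of_inv _ _ _ _ e1 e2 (fun _ => rfl))⟩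
    rw [MonoidHom.comp_apply, amap_sg, pmap_sg]
  -- the rotation
  obtain ⟨ρ, hρ1, -, hρ3⟩ := exists_rot (ev0 D) (τ := τ) (by
    intro u v
    ext r
    show (τ u ≠ τ v ∧ D.M (τ u) (τ v) ≠ 0 ∧ r = 1) ↔ (u ≠ v ∧ D.M u v ≠ 0 ∧ r = 1)
    rw [hτ.m, τ.injective.ne_iff]) hk
  have hρ : Pres D' ρ := by
    constructor
    · intro s t
      by_cases hst : s = t
      · subst hst
        rw [D'.M.diagonal, D'.M.diagonal]
      · by_cases hr : Rel τ F k s t
        · obtain ⟨a, b, rfl, rfl, hab⟩ := hr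
          have h4 := cl_zpow 1 hab
          rw [zpow_one] at h4
          rw [hρ1, hρ1, h1 _ _ h4, h1 _ _ hab, hτ.m]
        · rw [h2 s t hst hr]
          refine h2 _ _ (fun h => hst (ρ.injective h)) ?_
          rintro ⟨a, b, ha, hb, hab⟩
          refine hr ⟨(τ ^ (-1 : ℤ)) a, (τ ^ (-1 : ℤ)) b, ?_, ?_, cl_zpow _ hab⟩
          · apply ρ.injective
            rw [hρ1, ← ha]
            simp
          · apply ρ.injective
            rw [hρ1, ← hb]
            simp
    · intro s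
      obtain ⟨u, rfl⟩ := tm_surj τ s
      rw [hρ1, h3, h3, hτ.p]
  obtain ⟨σ₀, hσ₀⟩ := sh_aut D' ρ hρ
  have hσpow : ∀ (j : ℕ) (v : Tq τ k), (σ₀ ^ j) (sg D' v) = sg D' ((ρ ^ j) v) := by
    intro j
    induction j with
    | zero => intro v; simp
    | succ j ih =>
      intro v
      rw [pow_succ, MulAut.mul_apply, hσ₀, ih, pow_succ, Equiv.Perm.mul_apply]
  have hσk : σ₀ ^ k = 1 := by
    have h4 : (σ₀ ^ k).toMonoidHom = MonoidHom.id _ := by
      apply hom_ext
      intro v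
      show (σ₀ ^ k) (sg D' v) = sg D' v
      rw [hσpow, hρ3, Equiv.Perm.one_apply]
    ext x
    exact DFunLike.congr_fun h4 x
  have hpow : ∀ j : ℕ, ∃ p : Shep D', (MulAut.conj (J m₀)⁻¹ * σ₀) ^ j = MulAut.conj p * σ₀ ^ j := by
    intro j
    induction j with
    | zero => exact ⟨1, by simp⟩
    | succ j ih =>
      obtain ⟨p, hp⟩ := ih
      refine ⟨p * (σ₀ ^ j) (J m₀)⁻¹, ?_⟩
      rw [pow_succ, hp, pow_succ]
      ext y
      simp [MulAut.mul_apply, MulAut.conj_apply, mul_assoc]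
  obtain ⟨p, hp⟩ := hpow k
  rw [hσk, mul_one] at hp
  -- conjugation by `g`
  have hne : (e m : G) = n := by rw [hm, MulEquiv.apply_symm_apply]
  have hconj : ∀ v ∈ S, g * (e (sg D v) : G) * g⁻¹ = e (m⁻¹ * sg D (τ v) * m) := by
    intro v hv
    have h4 := hn v hv
    rw [map_mul, map_mul, map_inv, Subgroup.coe_mul, Subgroup.coe_mul, Subgroup.coe_inv, ← h4, hne]
    group
  let cg : N →* N := (MulAut.conjNormal g).toMonoidHom
  have hcg : ∀ x : N, (cg x : G) = g * x * g⁻¹ := fun x => MulAut.conjNormal_apply g x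
  let ψ : Shep D →* Shep D := (e.symm.toMonoidHom.comp cg).comp e.toMonoidHom
  have hψ : ∀ x, ψ x = e.symm (cg (e x)) := fun _ => rfl
  have hψv : ∀ v ∈ S, ψ (sg D v) = m⁻¹ * sg D (τ v) * m := by
    intro v hv
    rw [hψ, MulEquiv.symm_apply_eq]
    apply Subtype.ext
    rw [hcg]
    exact hconj v hv
  -- the maps on the part of `S`
  have eT : Emb (fsub D S) (fsub D F) (fun v => ⟨τ v, hτF v v.2⟩) :=
    ⟨fun u v => hτ.m u v, fun u => hτ.p u⟩
  have hψS : ∀ z : Shep (fsub D S), ψ (pmap D _ (val_inj (fun b => b ∈ S)) z) =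
      pmap D _ (val_inj (fun b => b ∈ F)) (m₀⁻¹ * amap _ _ _ eT z * m₀) := by
    have h4 : ψ.comp (pmap D _ (val_inj (fun b => b ∈ S))) =
        (pmap D _ (val_inj (fun b => b ∈ F))).comp
          ((MulAut.conj m₀⁻¹).toMonoidHom.comp (amap _ _ _ eT)) := by
      apply hom_ext
      intro v
      rw [MonoidHom.comp_apply, pmap_sg, hψv v v.2]
      show _ = pmap D _ (val_inj (fun b => b ∈ F)) (MulAut.conj m₀⁻¹ (amap _ _ _ eT (sg _ v)))
      rw [amap_sg, MulAut.conj_apply, inv_inv, map_mul, map_mul, map_inv, hm₀, pmap_sg]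
    intro z
    have h5 := DFunLike.congr_fun h4 z
    rw [MonoidHom.comp_apply] at h5
    rw [h5]
    show pmap D _ (val_inj (fun b => b ∈ F)) (MulAut.conj m₀⁻¹ (amap _ _ _ eT z)) = _
    rw [MulAut.conj_apply, inv_inv]
  have hJS : ∀ z : Shep (fsub D S), J (m₀⁻¹ * amap _ _ _ eT z * m₀) =
      (MulAut.conj (J m₀)⁻¹ * σ₀) (J (smap D (fun b hb => hSF hb) z)) := by
    have h4 : J.comp ((MulAut.conj m₀⁻¹).toMonoidHom.comp (amap _ _ _ eT)) =
        (MulAut.conj (J m₀)⁻¹ * σ₀).toMonoidHom.comp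
          (J.comp (smap D (fun b hb => hSF hb))) := by
      apply hom_ext
      intro v
      show J (MulAut.conj m₀⁻¹ (amap _ _ _ eT (sg _ v))) =
        (MulAut.conj (J m₀)⁻¹ * σ₀) (J (smap D (fun b hb => hSF hb) (sg _ v)))
      rw [amap_sg, smap_sg, MulAut.conj_apply, inv_inv, map_mul, map_mul, map_inv, hJ, hJ,
        MulAut.mul_apply, hσ₀, hρ1, MulAut.conj_apply, inv_inv]
    intro z
    have h5 := DFunLike.congr_fun h4 z
    have h6 : J (MulAut.conj m₀⁻¹ (amap _ _ _ eT z)) =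
        (MulAut.conj (J m₀)⁻¹ * σ₀) (J (smap D (fun b hb => hSF hb) z)) := h5
    rw [MulAut.conj_apply, inv_inv] at h6
    exact h6
  have hle : Subgroup.closure (E₀ ∪ (fun x => g * x * g⁻¹) '' E₀) ≤ N := by
    rw [Subgroup.closure_le]
    rintro x (hx | ⟨y, hy, rfl⟩)
    · exact hEN hx
    · exact Subgroup.Normal.conj_mem inferInstance y (hEN hy) g
  have hlF : ∀ x (hx : x ∈ Subgroup.closure (E₀ ∪ (fun x => g * x * g⁻¹) '' E₀)),
      e.symm ⟨x, hle hx⟩ ∈ (pmap D _ (val_inj (fun b => b ∈ F))).range := by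
    have h4 : Subgroup.closure (E₀ ∪ (fun x => g * x * g⁻¹) '' E₀) ≤
        ((pmap D _ (val_inj (fun b => b ∈ F))).range.map e.toMonoidHom).map N.subtype := by
      rw [Subgroup.closure_le]
      rintro x (hx | ⟨y, hy, rfl⟩)
      · exact ⟨⟨x, hEN hx⟩, ⟨e.symm ⟨x, hEN hx⟩, hmono hSF (hSx x hx),
          e.apply_symm_apply _⟩, rfl⟩
      · obtain ⟨z, hz⟩ := hSx y hy
        refine ⟨e (ψ (e.symm ⟨y, hEN hy⟩)), ⟨_, ?_, rfl⟩, ?_⟩
        · rw [← hz, hψS]
          exact ⟨_, rfl⟩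
        · rw [hψ, e.apply_symm_apply, e.apply_symm_apply]
          exact hcg _
    intro x hx
    obtain ⟨z, ⟨w, hw, rfl⟩, hz⟩ := h4 hx
    have h5 : e.symm ⟨x, hle hx⟩ = w := by
      rw [MulEquiv.symm_apply_eq]
      exact Subtype.ext hz.symm
    rw [h5]
    exact hw
  -- the map on the generated subgroup
  obtain ⟨f, hf⟩ : ∃ f : ↥(Subgroup.closure (E₀ ∪ (fun x => g * x * g⁻¹) '' E₀)) →*
      Shep (fsub D F), ∀ x, pmap D _ (val_inj (fun b => b ∈ F)) (f x) =
        e.symm (Subgroup.inclusion hle x) := by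
    let f₁ : ↥(Subgroup.closure (E₀ ∪ (fun x => g * x * g⁻¹) '' E₀)) →*
        ↥(pmap D _ (val_inj (fun b => b ∈ F))).range :=
      (e.symm.toMonoidHom.comp (Subgroup.inclusion hle)).codRestrict _ (fun x => hlF x x.2)
    refine ⟨(MonoidHom.ofInjective (pmap_inj D _
      (val_inj (fun b => b ∈ F)))).symm.toMonoidHom.comp f₁, ?_⟩
    intro x
    have h4 := (MonoidHom.ofInjective (pmap_inj D _
      (val_inj (fun b => b ∈ F)))).apply_symm_apply (f₁ x)
    exact congrArg Subtype.val h4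
  refine ⟨Shep D', inferInstance, J.comp f, MulAut.conj (J m₀)⁻¹ * σ₀, k, p,
    quot_mem hC hW hcl hk D' h1 h2 h3, ?_, hk.pos, hp, ?_⟩
  · intro x y hxy
    have h4 : f x = f y := hJinj hxy
    have h5 := hf x
    rw [h4, hf y] at h5
    have h6 := e.symm.injective h5
    exact Subtype.ext (congrArg (fun z : N => (z : G)) h6.symm)
  · intro x y hx hy
    obtain ⟨z, hz⟩ := hSx x hx
    have h4 : f x = smap D (fun b hb => hSF hb) z := by
      apply pmap_inj D _ (val_inj (fun b => b ∈ F))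
      rw [hf, pmap_smap]
      exact hz.symm
    have h5 : f y = m₀⁻¹ * amap _ _ _ eT z * m₀ := by
      apply pmap_inj D _ (val_inj (fun b => b ∈ F))
      rw [hf, ← hψS, hz, hψ, e.apply_symm_apply]
      congr 1
      apply Subtype.ext
      rw [hcg]
      exact hy
    show J (f y) = (MulAut.conj (J m₀)⁻¹ * σ₀) (J (f x))
    rw [h4, h5, hJS]

end Q9.FJA
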