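import Pool.Agent.Q9.FJA.Van
import Pool.Agent.Q9.FJA.Hnn

/-!
# Two generators without a relation
-/

set_option autoImplicit false

namespace Q9.FJA

open Pool.Agent.Helper741 (alt map_alt)
open Pool.Agent.Y110.FJ (ClosedE)
open Q182.FV

variable {C : ∀ (G : Type) [Group G], Prop}

theorem alt_conj {G : Type} [Group G] (t a b : G) (m : ℕ) :
    alt (t * a * t⁻¹) (t * b * t⁻¹) m = t * alt a b m * t⁻¹ := by
  have h1 := map_alt (MulAut.conj t).toMonoidHom a b m
  exact h1.symm

theorem coxeter_mem (hC : ClosedE C)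
    (hW : ∀ (n : ℕ) (M : CoxeterMatrix (Fin n)), C M.Group) {B : Type} [Finite B]
    (M : CoxeterMatrix B) : C M.Group := by
  obtain ⟨n, ⟨e⟩⟩ := Finite.exists_equiv_fin B
  exact hC.base.of_injective _ _ (M.reindexGroupEquiv e).symm.toMonoidHom
    (M.reindexGroupEquiv e).symm.injective (hW n (M.reindex e))

section split

variable {B : Type} (D : ShData B)

theorem val_inj (p : B → Prop) : Function.Injective (fun b : {b : B // p b} => (b : B)) :=
  Subtype.val_injective

/-- the data of a subset -/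
abbrev sub (p : B → Prop) : ShData {b : B // p b} :=
  res D (fun b : {b : B // p b} => (b : B)) (val_inj p)

theorem sub_m (p : B → Prop) (a b : {b : B // p b}) : (sub D p).M a b = D.M a b := rfl

theorem sub_p (p : B → Prop) (a : {b : B // p b}) : (sub D p).p a = D.p a := rfl

theorem sub_emb {p q : B → Prop} (h : ∀ b, p b → q b) :
    Emb (sub D p) (sub D q) (fun b => ⟨b.1, h b.1 b.2⟩) := ⟨fun _ _ => rfl, fun _ => rfl⟩

/-- the inclusion of a smaller subset -/
def smap {p q : B → Prop} (h : ∀ b, p b → q b) : Shep (sub D p) →* Shep (sub D q) :=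
  amap (sub D p) (sub D q) (fun b => ⟨b.1, h b.1 b.2⟩) (sub_emb D h)

theorem smap_sg {p q : B → Prop} (h : ∀ b, p b → q b) (b : {b : B // p b}) :
    smap D h (sg _ b) = sg (sub D q) ⟨b.1, h b.1 b.2⟩ :=
  amap_sg (sub D p) (sub D q) (fun b => ⟨b.1, h b.1 b.2⟩) (sub_emb D h) b

theorem pmap_smap {p q : B → Prop} (h : ∀ b, p b → q b) (x : Shep (sub D p)) :
    pmap D _ (val_inj q) (smap D h x) = pmap D _ (val_inj p) x := by
  have h1 : (pmap D _ (val_inj q)).comp (smap D h) = pmap D _ (val_inj p) := by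
    apply hom_ext
    intro s
    rw [MonoidHom.comp_apply, smap_sg, pmap_sg, pmap_sg]
  exact DFunLike.congr_fun h1 x

theorem smap_inj [Finite B] {p q : B → Prop} (h : ∀ b, p b → q b) :
    Function.Injective (smap D h) := by
  have := Fintype.ofFinite B
  intro x y hxy
  apply pmap_inj_fin (D := D) (fun b : {b : B // p b} => (b : B)) (val_inj p)
  rw [← pmap_smap D h, ← pmap_smap D h, hxy]

end split

theorem step_mem (hC : ClosedE C) (hW : ∀ (n : ℕ) (M : CoxeterMatrix (Fin n)), C M.Group)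
    {B : Type} [Finite B] (D : ShData B) (v w : B) (hvw : v ≠ w) (h0 : D.M v w = 0)
    (h1 : C (Shep (sub D (fun b => b ≠ v)))) (h2 : C (Shep (sub D (fun b => b ≠ w)))) :
    C (Shep D) := by
  classical
  have := Fintype.ofFinite B
  -- the two inclusions
  have i1 : ∀ b : B, (b ≠ v ∧ b ≠ w) → b ≠ v := fun _ h => h.1
  have i2 : ∀ b : B, (b ≠ v ∧ b ≠ w) → b ≠ w := fun _ h => h.2
  let j1 : Shep (sub D (fun b => b ≠ v ∧ b ≠ w)) →*
      Monoid.Coprod (Shep (sub D (fun b => b ≠ v))) (Shep (sub D (fun b => b ≠ w))) :=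
    Monoid.Coprod.inl.comp (smap D i1)
  let j2 : Shep (sub D (fun b => b ≠ v ∧ b ≠ w)) →*
      Monoid.Coprod (Shep (sub D (fun b => b ≠ v))) (Shep (sub D (fun b => b ≠ w))) :=
    Monoid.Coprod.inr.comp (smap D i2)
  have hj1 : Function.Injective j1 := Monoid.Coprod.inl_injective.comp (smap_inj D i1)
  have hj2 : Function.Injective j2 := Monoid.Coprod.inr_injective.comp (smap_inj D i2)
  let φ : j1.range ≃* j2.range :=
    (MonoidHom.ofInjective hj1).symm.trans (MonoidHom.ofInjective hj2)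
  have hφ : ∀ (a : j1.range) (y : Shep (sub D (fun b => b ≠ v ∧ b ≠ w))),
      (a : Monoid.Coprod (Shep (sub D (fun b => b ≠ v))) (Shep (sub D (fun b => b ≠ w)))) = j1 y →
      (φ a : Monoid.Coprod (Shep (sub D (fun b => b ≠ v))) (Shep (sub D (fun b => b ≠ w)))) =
        j2 y := by
    intro a y h
    have h3 : (MonoidHom.ofInjective hj1).symm a = y := by
      rw [MulEquiv.symm_apply_eq]
      exact Subtype.ext h
    have h4 : φ a = MonoidHom.ofInjective hj2 y := by
      show MonoidHom.ofInjective hj2 ((MonoidHom.ofInjective hj1).symm a) = _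
      rw [h3]
    rw [h4]
    rfl
  -- the retraction
  let q₀ : Monoid.Coprod (Shep (sub D (fun b => b ≠ v))) (Shep (sub D (fun b => b ≠ w))) →*
      Shep D := Monoid.Coprod.lift (pmap D _ (val_inj _)) (pmap D _ (val_inj _))
  have hq1 : ∀ y, q₀ (j1 y) = pmap D _ (val_inj _) y := by
    intro y
    show q₀ (Monoid.Coprod.inl (smap D i1 y)) = _
    rw [Monoid.Coprod.lift_apply_inl, pmap_smap]
  have hq2 : ∀ y, q₀ (j2 y) = pmap D _ (val_inj _) y := by
    intro y
    show q₀ (Monoid.Coprod.inr (smap D i2 y)) = _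
    rw [Monoid.Coprod.lift_apply_inr, pmap_smap]
  let q : HNNExtension _ j1.range j2.range φ →* Shep D :=
    HNNExtension.lift q₀ 1 (by
      intro a
      obtain ⟨y, hy⟩ := a.2
      rw [one_mul, mul_one, hφ a y hy.symm, ← hy]
      exact (hq1 y).trans (hq2 y).symm)
  have hqof : ∀ x, q (HNNExtension.of x) = q₀ x := fun x => HNNExtension.lift_of _ _ _ _
  have hqt : q HNNExtension.t = 1 := HNNExtension.lift_t _ _ _
  -- the embedding
  let f : B → HNNExtension _ j1.range j2.range φ := fun b =>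
    if h : b = v then HNNExtension.of (Monoid.Coprod.inr (sg _ ⟨b, fun h' => hvw (h.symm.trans h')⟩))
    else HNNExtension.t * HNNExtension.of (Monoid.Coprod.inl (sg _ ⟨b, h⟩)) * HNNExtension.t⁻¹
  have hf1 : ∀ b (h : b ≠ v), f b =
      HNNExtension.t * HNNExtension.of (Monoid.Coprod.inl (sg _ ⟨b, h⟩)) * HNNExtension.t⁻¹ :=
    fun b h => dif_neg h
  have hf2 : ∀ b (h : b ≠ w), f b = HNNExtension.of (Monoid.Coprod.inr (sg _ ⟨b, h⟩)) := by
    intro b h
    by_cases hb : b = v
    · exact dif_pos hb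
    · rw [hf1 b hb]
      have h3 : j1 (sg _ ⟨b, hb, h⟩) = Monoid.Coprod.inl (sg _ ⟨b, hb⟩) := by
        show Monoid.Coprod.inl (smap D i1 _) = _
        rw [smap_sg]
      have h4 : j2 (sg _ ⟨b, hb, h⟩) = Monoid.Coprod.inr (sg _ ⟨b, h⟩) := by
        show Monoid.Coprod.inr (smap D i2 _) = _
        rw [smap_sg]
      rw [← h3, ← h4]
      have h5 := HNNExtension.t_mul_of (φ := φ) (⟨j1 (sg _ ⟨b, hb, h⟩), ⟨_, rfl⟩⟩ : j1.range)
      rw [hφ _ _ rfl] at h5
      have h6 : (HNNExtension.t : HNNExtension _ j1.range j2.range φ) *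
          HNNExtension.of (j1 (sg _ ⟨b, hb, h⟩)) =
          HNNExtension.of (j2 (sg _ ⟨b, hb, h⟩)) * HNNExtension.t := h5
      rw [h6, mul_inv_cancel_right]
  have hfr : ∀ s t, alt (f s) (f t) (D.M s t) = alt (f t) (f s) (D.M s t) := by
    intro s t
    by_cases hst : s ≠ v ∧ t ≠ v
    · rw [hf1 s hst.1, hf1 t hst.2, alt_conj, alt_conj, ← map_alt, ← map_alt, ← map_alt, ← map_alt]
      have h3 := sg_rel (sub D (fun b => b ≠ v)) ⟨s, hst.1⟩ ⟨t, hst.2⟩
      rw [sub_m] at h3
      rw [h3]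
    · by_cases hst' : s ≠ w ∧ t ≠ w
      · rw [hf2 s hst'.1, hf2 t hst'.2, ← map_alt, ← map_alt, ← map_alt, ← map_alt]
        have h3 := sg_rel (sub D (fun b => b ≠ w)) ⟨s, hst'.1⟩ ⟨t, hst'.2⟩
        rw [sub_m] at h3
        rw [h3]
      · have h3 : D.M s t = 0 := by
          rw [not_and_or, not_not, not_not] at hst hst'
          rcases hst with h | h <;> rcases hst' with h' | h'
          · exact absurd (h.symm.trans h') hvw
          · rw [h, h', h0]
          · rw [h, h', D.M.symmetric, h0]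
          · exact absurd (h.symm.trans h') hvw
        rw [h3, Pool.Agent.Helper741.alt_zero, Pool.Agent.Helper741.alt_zero]
  have hfp : ∀ s, f s ^ D.p s = 1 := by
    intro s
    by_cases hs : s = v
    · have hs' : s ≠ w := fun h' => hvw (hs.symm.trans h')
      rw [hf2 s hs', ← map_pow, ← map_pow]
      have h3 := sg_pow (sub D (fun b => b ≠ w)) ⟨s, hs'⟩
      rw [sub_p] at h3
      rw [h3, map_one, map_one]
    · have h4 : ∀ (t a : HNNExtension _ j1.range j2.range φ) (m : ℕ),
          (t * a * t⁻¹) ^ m = t * a ^ m * t⁻¹ := fun t a m =>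
        (map_pow (MulAut.conj t) a m).symm
      rw [hf1 s hs, h4, ← map_pow, ← map_pow]
      have h3 := sg_pow (sub D (fun b => b ≠ v)) ⟨s, hs⟩
      rw [sub_p] at h3
      rw [h3, map_one, map_one, mul_one, mul_inv_cancel]
  have hqe : q.comp (lift f hfr hfp) = MonoidHom.id _ := by
    apply hom_ext
    intro b
    rw [MonoidHom.comp_apply, lift_sg, MonoidHom.id_apply]
    by_cases hb : b = v
    · rw [hf2 b (fun h' => hvw (hb.symm.trans h')), hqof, Monoid.Coprod.lift_apply_inr, pmap_sg]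
    · rw [hf1 b hb, map_mul, map_mul, map_inv, hqt, hqof, Monoid.Coprod.lift_apply_inl, pmap_sg,
        one_mul, inv_one, mul_one]
  have hinj : Function.Injective (lift f hfr hfp) := by
    intro x y hxy
    have h3 := DFunLike.congr_fun hqe x
    have h4 := DFunLike.congr_fun hqe y
    rw [MonoidHom.comp_apply, MonoidHom.id_apply] at h3 h4
    rw [← h3, hxy, h4]
  refine hC.base.of_injective _ _ (lift f hfr hfp) hinj ?_
  -- the HNN extension
  obtain ⟨X, _, x₀, c, hc, hcf, hcp⟩ := par_coc D.M.toCoxeterSystem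
    (fun b : {b : B // b ≠ v ∧ b ≠ w} => (b : B)) (val_inj _)
  have hc' : ∀ (g h : HNNExtension _ j1.range j2.range φ) (x : X), c (q (g * h)) x =
      c (q g) (((toCox D.M.toCoxeterSystem).comp q) h • x) * c (q h) x := by
    intro g h x
    rw [map_mul, hc]
    rfl
  have hAJ : C (Shep (sub D (fun b => b ≠ v ∧ b ≠ w))) :=
    hC.base.of_injective _ _ (smap D i1) (smap_inj D i1) h1
  refine hnn_rep hC (Shep (sub D (fun b => b ≠ v ∧ b ≠ w))) hAJ _ j1.range j2.range φ
    (hC.base.coprod _ _ h1 h2) ((toCox D.M.toCoxeterSystem).comp q).ker ?_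
    (Set.range (pih (c := fun g x => c (q g) x) hc')) ?_ (conjInv hc') (locFin hc' ?_)
  · exact hC.base.of_injective _ _
      (QuotientGroup.kerLift ((toCox D.M.toCoxeterSystem).comp q))
      (QuotientGroup.kerLift_injective _) (coxeter_mem hC hW D.M)
  · rintro n ⟨_, ⟨y, rfl⟩, hy⟩ hn
    have h3 : c (q n) x₀ = 1 := hn _ ⟨x₀, rfl⟩
    rw [hy, hqof, hq1] at h3
    have h4 := (hcp y).2
    have h5 : y = 1 := h4.symm.trans h3
    apply Subtype.ext
    rw [hy, h5, map_one, map_one]
    rfl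
  · intro g
    refine (hcf (q g)).subset ?_
    rintro _ ⟨x, rfl⟩
    exact ⟨x, rfl⟩

end Q9.FJA
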