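import Pool.Agent.Helper741.Tits

/-!
# The presentation of the symmetric group
-/

set_option autoImplicit false

namespace Q9.FJA

open Pool.Agent.Helper741 Equiv

theorem A_app (n : ℕ) (i j : Fin n) : CoxeterMatrix.A n i j =
    if i = j then 1 else if (j : ℕ) + 1 = i ∨ (i : ℕ) + 1 = j then 3 else 2 := rfl

/-- adjacent transposition -/
def tr {n : ℕ} (i : Fin n) : Perm (Fin (n + 1)) := swap i.castSucc i.succ

theorem tr_sq {n : ℕ} (i : Fin n) : tr i * tr i = 1 := swap_mul_self _ _

theorem tr_comm {n : ℕ} {i j : Fin n} (h : (i : ℕ) + 1 < j ∨ (j : ℕ) + 1 < i) :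
    tr i * tr j = tr j * tr i := by
  refine (Equiv.Perm.Disjoint.commute ?_)
  unfold tr
  rw [Equiv.Perm.disjoint_iff_disjoint_support, Equiv.Perm.support_swap (by
    intro h'; have := congrArg Fin.val h'; simp at this), Equiv.Perm.support_swap (by
    intro h'; have := congrArg Fin.val h'; simp at this)]
  rw [Finset.disjoint_left]
  intro x hx hx'
  simp only [Finset.mem_insert, Finset.mem_singleton, Fin.ext_iff, Fin.val_castSucc,
    Fin.val_succ] at hx hx'
  omega

theorem tr_three {n : ℕ} {i j : Fin n} (h : (i : ℕ) + 1 = j) : (tr i * tr j) ^ 3 = 1 := by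
  have h1 : i.succ = j.castSucc := by
    ext
    simp [h]
  have h2 : (tr i * tr j).IsThreeCycle := by
    unfold tr
    rw [← h1, swap_comm i.castSucc i.succ]
    refine Equiv.Perm.isThreeCycle_swap_mul_swap_same ?_ ?_ ?_
    · intro h'; have := congrArg Fin.val h'; simp at this
    · intro h'; have := congrArg Fin.val h'; simp at this; omega
    · intro h'; have := congrArg Fin.val h'; simp at this; omega
  rw [← h2.orderOf]
  exact pow_orderOf_eq_one _

theorem tr_liftable (n : ℕ) : (CoxeterMatrix.A n).IsLiftable (tr (n := n)) := by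
  intro i j
  rw [A_app]
  split_ifs with h1 h2
  · rw [pow_one, h1, tr_sq]
  · rcases h2 with h2 | h2
    · have h3 : (tr j * tr i) ^ 3 = 1 := tr_three h2
      have h4 : tr i * tr j = (tr j * tr i)⁻¹ := by
        rw [mul_inv_rev]
        unfold tr
        rw [swap_inv, swap_inv]
      rw [h4, inv_pow, h3, inv_one]
    · exact tr_three h2
  · have h3 : tr i * tr j = tr j * tr i := by
      apply tr_comm
      rw [Fin.ext_iff] at h1
      omega
    rw [pow_two]
    calc tr i * tr j * (tr i * tr j) = tr i * tr j * (tr j * tr i) := by rw [h3]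
      _ = tr i * (tr j * tr j) * tr i := by simp only [mul_assoc]
      _ = 1 := by rw [tr_sq, mul_one, tr_sq]

/-- the homomorphism to the symmetric group -/
def symHom (n : ℕ) : (CoxeterMatrix.A n).Group →* Perm (Fin (n + 1)) :=
  (CoxeterMatrix.A n).toCoxeterSystem.lift ⟨_, tr_liftable n⟩

theorem symHom_simple {n : ℕ} (i : Fin n) :
    symHom n ((CoxeterMatrix.A n).toCoxeterSystem.simple i) = tr i :=
  CoxeterSystem.lift_apply_simple _ (tr_liftable n) i

/-- simple roots as differences of basis vectors -/
noncomputable def rt {n : ℕ} (i : Fin n) : Fin (n + 1) → ℝ :=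
  Pi.single i.castSucc 1 - Pi.single i.succ 1

/-- the embedding of the root space -/
noncomputable def rtE (n : ℕ) : (Fin n → ℝ) →ₗ[ℝ] (Fin (n + 1) → ℝ) :=
  Fintype.linearCombination ℝ (rt (n := n))

theorem rtE_ee {n : ℕ} (i : Fin n) : rtE n (ee i) = rt i := by
  have h1 : (ee i : Fin n → ℝ) = Pi.single i 1 := rfl
  rw [rtE, h1, Fintype.linearCombination_apply_single, one_smul]

theorem rtE_inj (n : ℕ) : Function.Injective (rtE n) := by
  rw [injective_iff_map_eq_zero]
  intro v hv
  have key : ∀ (k : ℕ) (h : k < n), v ⟨k, h⟩ = 0 := by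
    intro k
    induction k using Nat.strong_induction_on with
    | _ k ih =>
      intro h
      have h1 := congrFun hv (⟨k, h⟩ : Fin n).castSucc
      rw [rtE, Fintype.linearCombination_apply, Finset.sum_apply, Pi.zero_apply,
        Finset.sum_eq_single ⟨k, h⟩] at h1
      · rw [Pi.smul_apply, rt, Pi.sub_apply, Pi.single_eq_same, Pi.single_eq_of_ne, sub_zero,
          smul_eq_mul, mul_one] at h1
        · exact h1
        · intro h'; have := congrArg Fin.val h'; simp at this
      · intro j _ hj
        rw [Pi.smul_apply, rt, Pi.sub_apply, Pi.single_eq_of_ne]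
        · by_cases hj' : (j : ℕ) + 1 = k
          · have h2 : v j = 0 := by
              have := ih j (by omega) j.2
              exact this
            rw [h2, zero_smul]
          · rw [Pi.single_eq_of_ne]
            · simp
            · intro h'; have := congrArg Fin.val h'; simp at this; omega
        · intro h'
          apply hj
          have := congrArg Fin.val h'
          simp at this
          ext
          exact this.symm
      · intro h'
        exact absurd (Finset.mem_univ _) h'
  funext i
  exact key i i.2

/-- the permutation representation -/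
noncomputable def prm {n : ℕ} (σ : Perm (Fin n)) : (Fin n → ℝ) →ₗ[ℝ] (Fin n → ℝ) :=
  LinearMap.funLeft ℝ ℝ σ.symm

theorem prm_single {n : ℕ} (σ : Perm (Fin n)) (a : Fin n) :
    prm σ (Pi.single a 1) = Pi.single (σ a) 1 := by
  funext b
  rw [prm, LinearMap.funLeft_apply]
  by_cases h : b = σ a
  · rw [h, σ.symm_apply_apply, Pi.single_eq_same, Pi.single_eq_same]
  · rw [Pi.single_eq_of_ne h, Pi.single_eq_of_ne]
    intro h'
    apply h
    rw [← h', σ.apply_symm_apply]

theorem prm_mul {n : ℕ} (σ τ : Perm (Fin n)) (v : Fin n → ℝ) :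
    prm (σ * τ) v = prm σ (prm τ v) := by
  funext b
  rfl

theorem prm_rt {n : ℕ} (i j : Fin n) : prm (tr i) (rt j) =
    rt j + (2 * cc (CoxeterMatrix.A n) j i) • rt i := by
  have hne : (i.castSucc : Fin (n + 1)) ≠ i.succ := by
    intro h'; have := congrArg Fin.val h'; simp at this
  by_cases h1 : j = i
  · subst h1
    rw [cc_self, rt, map_sub, prm_single, prm_single, tr, swap_apply_left, swap_apply_right]
    module
  · by_cases h2 : (j : ℕ) + 1 = i
    · have hc : cc (CoxeterMatrix.A n) j i = 1 / 2 := by
        unfold cc
        rw [A_app, if_neg h1, if_pos (Or.inr h2)]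
        push_cast
        exact Real.cos_pi_div_three
      have h3 : j.succ = i.castSucc := by ext; simp [h2]
      rw [hc, rt, rt, map_sub, prm_single, prm_single, h3, tr, swap_apply_left,
        swap_apply_of_ne_of_ne]
      · module
      · intro h'; have := congrArg Fin.val h'; simp at this; omega
      · intro h'; have := congrArg Fin.val h'; simp at this; omega
    · by_cases h4 : (i : ℕ) + 1 = j
      · have hc : cc (CoxeterMatrix.A n) j i = 1 / 2 := by
          unfold cc
          rw [A_app, if_neg h1, if_pos (Or.inl h4)]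
          push_cast
          exact Real.cos_pi_div_three
        have h3 : j.castSucc = i.succ := by ext; simp [h4]
        rw [hc, rt, rt, map_sub, prm_single, prm_single, h3, tr, swap_apply_right,
          swap_apply_of_ne_of_ne]
        · module
        · intro h'; have := congrArg Fin.val h'; simp at this; omega
        · intro h'; have := congrArg Fin.val h'; simp at this; omega
      · have hc : cc (CoxeterMatrix.A n) j i = 0 := by
          unfold cc
          rw [A_app, if_neg h1, if_neg (by omega)]
          push_cast
          exact Real.cos_pi_div_two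
        have h1' : (j : ℕ) ≠ i := fun h => h1 (Fin.ext h)
        rw [hc, rt, rt, map_sub, prm_single, prm_single, tr, swap_apply_of_ne_of_ne,
          swap_apply_of_ne_of_ne]
        · module
        · intro h'; have := congrArg Fin.val h'; simp at this; omega
        · intro h'; have := congrArg Fin.val h'; simp at this; omega
        · intro h'; have := congrArg Fin.val h'; simp at this; omega
        · intro h'; have := congrArg Fin.val h'; simp at this; omega

theorem symHom_inj (n : ℕ) : Function.Injective (symHom n) := by
  have hint : ∀ (w : (CoxeterMatrix.A n).Group) (v : Fin n → ℝ),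
      prm (symHom n w) (rtE n v) = rtE n (geo (CoxeterMatrix.A n).toCoxeterSystem w v) := by
    intro w
    induction w using (CoxeterMatrix.A n).toCoxeterSystem.simple_induction with
    | simple i =>
      intro v
      rw [symHom_simple, geo_simple]
      have h1 : (prm (tr i)).comp (rtE n) =
          (rtE n).comp (Pool.Agent.Helper741.sg (CoxeterMatrix.A n) i) := by
        apply (Pi.basisFun ℝ (Fin n)).ext
        intro j
        have h2 : (Pi.basisFun ℝ (Fin n)) j = ee j := by
          rw [Pi.basisFun_apply]
        rw [h2, LinearMap.comp_apply, LinearMap.comp_apply, rtE_ee, sg_ee, map_add, map_smul,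
          rtE_ee, rtE_ee, prm_rt]
      exact LinearMap.congr_fun h1 v
    | one =>
      intro v
      rw [map_one, map_one, Module.End.one_apply]
      rfl
    | mul w w' hw hw' =>
      intro v
      rw [map_mul, map_mul, prm_mul, Module.End.mul_apply, hw', hw]
  rw [injective_iff_map_eq_one]
  intro w hw
  apply eq_one_of_geo (CoxeterMatrix.A n).toCoxeterSystem
  intro i
  have h1 := hint w (ee i)
  rw [hw] at h1
  have h2 : prm (1 : Perm (Fin (n + 1))) (rtE n (ee i)) = rtE n (ee i) := rfl
  rw [h2] at h1
  rw [← rtE_inj n h1]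
  exact ee_nonneg i

theorem symHom_surj (n : ℕ) : Function.Surjective (symHom n) := by
  have h1 : Submonoid.closure (Set.range fun i : Fin n => swap i.castSucc i.succ) ≤
      MonoidHom.mrange (symHom n) := by
    rw [Submonoid.closure_le]
    rintro _ ⟨i, rfl⟩
    exact ⟨_, symHom_simple i⟩
  rw [Equiv.Perm.mclosure_swap_castSucc_succ] at h1
  intro σ
  exact h1 (Submonoid.mem_top σ)

/-- the symmetric group has the Coxeter presentation -/
theorem sym_lift {n : ℕ} {H : Type} [Group H] (f : Fin n → H) (h1 : ∀ i, f i * f i = 1)
    (h2 : ∀ i j : Fin n, (i : ℕ) + 1 = j → f i * f j * f i = f j * f i * f j)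
    (h3 : ∀ i j : Fin n, (i : ℕ) + 1 < j → f i * f j = f j * f i) :
    ∃ π : Perm (Fin (n + 1)) →* H, ∀ i, π (tr i) = f i := by
  have hl : (CoxeterMatrix.A n).IsLiftable f := by
    have h4 : ∀ i j : Fin n, (i : ℕ) + 1 = j → (f i * f j) ^ 3 = 1 := by
      intro i j h
      have h5 := h2 i j h
      calc (f i * f j) ^ 3 = (f i * f j * f i) * (f j * f i * f j) := by
            rw [pow_succ, pow_two]; simp only [mul_assoc]
        _ = (f i * f j * f i) * (f i * f j * f i) := by rw [h5]
        _ = f i * f j * (f i * f i) * f j * f i := by simp only [mul_assoc]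
        _ = f i * (f j * f j) * f i := by rw [h1, mul_one]; simp only [mul_assoc]
        _ = 1 := by rw [h1, mul_one, h1]
    have h5 : ∀ i j : Fin n, (i : ℕ) + 1 < j → (f i * f j) ^ 2 = 1 := by
      intro i j h
      calc (f i * f j) ^ 2 = (f i * f j) * (f j * f i) := by rw [pow_two, h3 i j h]
        _ = f i * (f j * f j) * f i := by simp only [mul_assoc]
        _ = 1 := by rw [h1, mul_one, h1]
    have hinv : ∀ i j : Fin n, f i * f j = (f j * f i)⁻¹ := by
      intro i j
      rw [mul_inv_rev, inv_eq_of_mul_eq_one_right (h1 i), inv_eq_of_mul_eq_one_right (h1 j)]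
    intro i j
    rw [A_app]
    split_ifs with ha hb
    · rw [pow_one, ha, h1]
    · rcases hb with hb | hb
      · rw [hinv, inv_pow, h4 j i hb, inv_one]
      · exact h4 i j hb
    · rw [Fin.ext_iff] at ha
      rcases lt_or_gt_of_ne ha with hc | hc
      · exact h5 i j (by omega)
      · rw [hinv, inv_pow, h5 j i (by omega), inv_one]
  let e : (CoxeterMatrix.A n).Group ≃* Perm (Fin (n + 1)) :=
    MulEquiv.ofBijective (symHom n) ⟨symHom_inj n, symHom_surj n⟩
  refine ⟨((CoxeterMatrix.A n).toCoxeterSystem.lift ⟨f, hl⟩).comp e.symm.toMonoidHom, ?_⟩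
  intro i
  have h4 : e.symm (tr i) = (CoxeterMatrix.A n).toCoxeterSystem.simple i := by
    rw [MulEquiv.symm_apply_eq]
    exact (symHom_simple i).symm
  show (CoxeterMatrix.A n).toCoxeterSystem.lift ⟨f, hl⟩ (e.symm (tr i)) = f i
  rw [h4]
  exact CoxeterSystem.lift_apply_simple _ hl i

end Q9.FJA
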