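import Pool.Agent.Q9.FJA.Sym
import Pool.Agent.Q9.FJA.Inf
import Pool.Agent.Q30.FJ.Eppa

/-!
# Virtual braid groups
-/

set_option autoImplicit false

namespace Q9.FJA

open Pool.Agent.Helper741 (alt map_alt)
open Pool.Agent.Y110.FJ (ClosedE)
open Equiv

/-- generators of the virtual braid group on `n + 1` strands -/
inductive VGen (n : ℕ) : Type
  | sigma (i : Fin n) : VGen n
  | rho (i : Fin n) : VGen n

/-- the defining relations `u = v` of the virtual braid group on `n + 1` strands -/
inductive VRel (n : ℕ) : FreeGroup (VGen n) → FreeGroup (VGen n) → Prop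
  | sigma_braid (i j : Fin n) (h : (i : ℕ) + 1 = j) : VRel n
      (FreeGroup.of (.sigma i) * FreeGroup.of (.sigma j) * FreeGroup.of (.sigma i))
      (FreeGroup.of (.sigma j) * FreeGroup.of (.sigma i) * FreeGroup.of (.sigma j))
  | sigma_comm (i j : Fin n) (h : (i : ℕ) + 1 < j) : VRel n
      (FreeGroup.of (.sigma i) * FreeGroup.of (.sigma j))
      (FreeGroup.of (.sigma j) * FreeGroup.of (.sigma i))
  | rho_square (i : Fin n) : VRel n (FreeGroup.of (.rho i) * FreeGroup.of (.rho i)) 1
  | rho_braid (i j : Fin n) (h : (i : ℕ) + 1 = j) : VRel n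
      (FreeGroup.of (.rho i) * FreeGroup.of (.rho j) * FreeGroup.of (.rho i))
      (FreeGroup.of (.rho j) * FreeGroup.of (.rho i) * FreeGroup.of (.rho j))
  | rho_comm (i j : Fin n) (h : (i : ℕ) + 1 < j) : VRel n
      (FreeGroup.of (.rho i) * FreeGroup.of (.rho j))
      (FreeGroup.of (.rho j) * FreeGroup.of (.rho i))
  | sigma_rho_comm (i j : Fin n) (h : (i : ℕ) + 1 < j ∨ (j : ℕ) + 1 < i) : VRel n
      (FreeGroup.of (.sigma i) * FreeGroup.of (.rho j))
      (FreeGroup.of (.rho j) * FreeGroup.of (.sigma i))
  | mixed (i j : Fin n) (h : (i : ℕ) + 1 = j) : VRel n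
      (FreeGroup.of (.rho i) * FreeGroup.of (.rho j) * FreeGroup.of (.sigma i))
      (FreeGroup.of (.sigma j) * FreeGroup.of (.rho i) * FreeGroup.of (.rho j))

/-- the virtual braid group on `n + 1` strands -/
abbrev VB (n : ℕ) : Type := PresentedGroup {r | ∃ u v, VRel n u v ∧ r = u * v⁻¹}

theorem vb_rel {n : ℕ} {u v : FreeGroup (VGen n)} (h : VRel n u v) :
    (QuotientGroup.mk' (Subgroup.normalClosure {r | ∃ u v, VRel n u v ∧ r = u * v⁻¹})) u =
      (QuotientGroup.mk' (Subgroup.normalClosure {r | ∃ u v, VRel n u v ∧ r = u * v⁻¹})) v := by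
  have h1 : (QuotientGroup.mk' (Subgroup.normalClosure {r | ∃ u v, VRel n u v ∧ r = u * v⁻¹}))
      (u * v⁻¹) = 1 :=
    (QuotientGroup.eq_one_iff _).2 (Subgroup.subset_normalClosure ⟨u, v, h, rfl⟩)
  rw [map_mul, map_inv, mul_inv_eq_one] at h1
  exact h1

/-! ### the kernel -/

section pairs

variable (X : Type)

/-- ordered pairs of different strands -/
abbrev Pr : Type := {p : X × X // p.1 ≠ p.2}

variable [DecidableEq X]

/-- the labels -/
def km (p q : Pr X) : ℕ :=
  if p = q then 1
  else if (p.1.2 = q.1.1 ∧ p.1.1 ≠ q.1.2) ∨ (p.1.1 = q.1.2 ∧ p.1.2 ≠ q.1.1) then 3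
  else if p.1.1 ≠ q.1.1 ∧ p.1.1 ≠ q.1.2 ∧ p.1.2 ≠ q.1.1 ∧ p.1.2 ≠ q.1.2 then 2
  else 0

/-- the Coxeter matrix of the kernel: `3` for `(i, j), (j, k)`, `2` for disjoint pairs, infinity
otherwise -/
def KV : CoxeterMatrix (Pr X) where
  M := fun p q => km X p q
  isSymm := by
    ext p q
    show km X q p = km X p q
    unfold km
    by_cases h : p = q
    · rw [if_pos h, if_pos h.symm]
    · rw [if_neg h, if_neg (Ne.symm h)]
      congr 1
      · rw [eq_iff_iff]
        constructor
        · rintro (⟨h1, h2⟩ | ⟨h1, h2⟩)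
          · exact Or.inr ⟨h1.symm, h2.symm⟩
          · exact Or.inl ⟨h1.symm, h2.symm⟩
        · rintro (⟨h1, h2⟩ | ⟨h1, h2⟩)
          · exact Or.inr ⟨h1.symm, h2.symm⟩
          · exact Or.inl ⟨h1.symm, h2.symm⟩
      · congr 1
        rw [eq_iff_iff]
        constructor
        · rintro ⟨h1, h2, h3, h4⟩
          exact ⟨h1.symm, h3.symm, h2.symm, h4.symm⟩
        · rintro ⟨h1, h2, h3, h4⟩
          exact ⟨h1.symm, h3.symm, h2.symm, h4.symm⟩
  diagonal p := if_pos rfl
  off_diagonal p q h := by
    show km X p q ≠ 1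
    unfold km
    rw [if_neg h]
    split_ifs <;> decide

theorem KV_app (p q : Pr X) : KV X p q = km X p q := rfl

/-- the action of the permutations -/
def pact (w : Perm X) (p : Pr X) : Pr X :=
  ⟨(w p.1.1, w p.1.2), fun h => p.2 (w.injective h)⟩

theorem km_pact (w : Perm X) (p q : Pr X) : km X (pact X w p) (pact X w q) = km X p q := by
  unfold km
  have h1 : pact X w p = pact X w q ↔ p = q := by
    constructor
    · intro h
      have h2 := congrArg Subtype.val h
      have h3 : w p.1.1 = w q.1.1 := congrArg Prod.fst h2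
      have h4 : w p.1.2 = w q.1.2 := congrArg Prod.snd h2
      exact Subtype.ext (Prod.ext (w.injective h3) (w.injective h4))
    · intro h
      rw [h]
  simp only [h1]
  simp only [pact, w.injective.eq_iff, ne_eq]

theorem pact_emb (w : Perm X) : Emb (artinData (KV X)) (artinData (KV X)) (pact X w) :=
  ⟨fun p q => km_pact X w p q, fun _ => rfl⟩

omit [DecidableEq X] in
theorem pact_one (p : Pr X) : pact X 1 p = p := rfl

omit [DecidableEq X] in
theorem pact_mul (v w : Perm X) (p : Pr X) : pact X (v * w) p = pact X v (pact X w p) := rfl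

/-- the automorphisms of the kernel -/
def kaut : Perm X →* MulAut (Artin (KV X)) where
  toFun w := MonoidHom.toMulEquiv (amap _ _ _ (pact_emb X w)) (amap _ _ _ (pact_emb X w⁻¹))
    (by
      apply hom_ext
      intro p
      rw [MonoidHom.comp_apply, amap_sg, amap_sg, ← pact_mul, inv_mul_cancel]
      rfl)
    (by
      apply hom_ext
      intro p
      rw [MonoidHom.comp_apply, amap_sg, amap_sg, ← pact_mul, mul_inv_cancel]
      rfl)
  map_one' := by
    apply MulEquiv.toMonoidHom_injective
    apply hom_ext
    intro p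
    show amap _ _ _ (pact_emb X 1) (sg _ p) = sg _ p
    rw [amap_sg]
    rfl
  map_mul' v w := by
    apply MulEquiv.toMonoidHom_injective
    apply hom_ext
    intro p
    show amap _ _ _ (pact_emb X (v * w)) (sg _ p) =
      amap _ _ _ (pact_emb X v) (amap _ _ _ (pact_emb X w) (sg _ p))
    rw [amap_sg, amap_sg, amap_sg]
    rfl

theorem kaut_sg (w : Perm X) (p : Pr X) : kaut X w (sg _ p) = sg _ (pact X w p) :=
  amap_sg _ _ _ (pact_emb X w) p

/-- the semidirect product -/
abbrev VS : Type := Artin (KV X) ⋊[kaut X] Perm X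

end pairs

theorem alt_three {G : Type} [Monoid G] (a b : G) : alt a b 3 = a * b * a := by
  rw [Pool.Agent.Helper741.alt_succ, Pool.Agent.Helper741.alt_two, mul_assoc]

section hom

variable (n : ℕ)

/-- the pair `(i, i + 1)` -/
def adj (i : Fin n) : Pr (Fin (n + 1)) := ⟨(i.castSucc, i.succ), by
  intro h
  have := congrArg Fin.val h
  simp at this⟩

/-- the images of the generators -/
def gv : VGen n → VS (Fin (n + 1))
  | .sigma i => SemidirectProduct.inl (sg _ (adj n i))
  | .rho i => SemidirectProduct.inr (tr i)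

theorem conj_inl {X : Type} [DecidableEq X] (w : Perm X) (p : Pr X) :
    (SemidirectProduct.inr w : VS X) * SemidirectProduct.inl (sg _ p) =
      SemidirectProduct.inl (sg _ (pact X w p)) * SemidirectProduct.inr w := by
  rw [← kaut_sg, SemidirectProduct.inl_aut, map_inv, inv_mul_cancel_right]

theorem gv_rel {u v : FreeGroup (VGen n)} (h : VRel n u v) :
    FreeGroup.lift (gv n) u = FreeGroup.lift (gv n) v := by
  have hcs : ∀ i : Fin n, ((i.castSucc : Fin (n + 1)) : ℕ) = i := fun i => rfl
  have hsc : ∀ i : Fin n, ((i.succ : Fin (n + 1)) : ℕ) = i + 1 := fun i => Fin.val_succ i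
  cases h with
  | sigma_braid i j h =>
    simp only [map_mul, FreeGroup.lift_apply_of, gv]
    rw [← map_mul, ← map_mul, ← map_mul, ← map_mul]
    congr 1
    have h1 := sg_rel (artinData (KV (Fin (n + 1)))) (adj n i) (adj n j)
    have h2 : (artinData (KV (Fin (n + 1)))).M (adj n i) (adj n j) = 3 := by
      show km _ (adj n i) (adj n j) = 3
      unfold km
      rw [if_neg, if_pos]
      · left
        constructor
        · show i.succ = j.castSucc
          ext
          rw [hsc, hcs, h]
        · show i.castSucc ≠ j.succ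
          intro h'
          have := congrArg Fin.val h'
          rw [hcs, hsc] at this
          omega
      · intro h'
        have h3 : i.castSucc = j.castSucc := congrArg (fun p : Pr (Fin (n + 1)) => p.1.1) h'
        have := congrArg Fin.val h3
        rw [hcs, hcs] at this
        omega
    rw [h2, alt_three, alt_three] at h1
    exact h1
  | sigma_comm i j h =>
    simp only [map_mul, FreeGroup.lift_apply_of, gv]
    rw [← map_mul, ← map_mul]
    congr 1
    have h1 := sg_rel (artinData (KV (Fin (n + 1)))) (adj n i) (adj n j)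
    have h2 : (artinData (KV (Fin (n + 1)))).M (adj n i) (adj n j) = 2 := by
      show km _ (adj n i) (adj n j) = 2
      have e1 : (adj n i).1.1 ≠ (adj n j).1.1 := by
        intro h'
        have : (i : ℕ) = j := (congrArg Fin.val h' :)
        omega
      have e2 : (adj n i).1.1 ≠ (adj n j).1.2 := by
        intro h'
        have : (i : ℕ) = j + 1 := (congrArg Fin.val h' :)
        omega
      have e3 : (adj n i).1.2 ≠ (adj n j).1.1 := by
        intro h'
        have : (i : ℕ) + 1 = j := (congrArg Fin.val h' :)
        omega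
      have e4 : (adj n i).1.2 ≠ (adj n j).1.2 := by
        intro h'
        have : (i : ℕ) + 1 = j + 1 := (congrArg Fin.val h' :)
        omega
      unfold km
      rw [if_neg, if_neg, if_pos ⟨e1, e2, e3, e4⟩]
      · rintro (⟨h', -⟩ | ⟨h', -⟩)
        · exact e3 h'
        · exact e2 h'
      · intro h'
        exact e1 (by rw [h'])
    rw [h2, Pool.Agent.Helper741.alt_two, Pool.Agent.Helper741.alt_two] at h1
    exact h1
  | rho_square i =>
    simp only [map_mul, FreeGroup.lift_apply_of, gv, map_one]
    rw [← map_mul, tr_sq, map_one]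
  | rho_braid i j h =>
    simp only [map_mul, FreeGroup.lift_apply_of, gv]
    rw [← map_mul, ← map_mul, ← map_mul, ← map_mul]
    congr 1
    have h1 := tr_three h
    have h2 : tr i * tr j * tr i * (tr j * tr i * tr j) = 1 := by
      rw [← h1, pow_succ, pow_two]
      simp only [mul_assoc]
    have h3 : (tr j * tr i * tr j)⁻¹ = tr j * tr i * tr j := by
      rw [mul_inv_rev, mul_inv_rev, inv_eq_of_mul_eq_one_right (tr_sq i),
        inv_eq_of_mul_eq_one_right (tr_sq j), mul_assoc]
    rw [← h3]
    exact eq_inv_of_mul_eq_one_left h2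
  | rho_comm i j h =>
    simp only [map_mul, FreeGroup.lift_apply_of, gv]
    rw [← map_mul, ← map_mul, tr_comm (Or.inl h)]
  | sigma_rho_comm i j h =>
    simp only [map_mul, FreeGroup.lift_apply_of, gv]
    rw [conj_inl]
    congr 2
    congr 1
    apply Subtype.ext
    refine Prod.ext ?_ ?_
    · show i.castSucc = tr j i.castSucc
      unfold tr
      rw [swap_apply_of_ne_of_ne]
      · intro h'
        have : (i : ℕ) = j := (congrArg Fin.val h' :)
        omega
      · intro h'
        have : (i : ℕ) = j + 1 := (congrArg Fin.val h' :)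
        omega
    · show i.succ = tr j i.succ
      unfold tr
      rw [swap_apply_of_ne_of_ne]
      · intro h'
        have : (i : ℕ) + 1 = j := (congrArg Fin.val h' :)
        omega
      · intro h'
        have : (i : ℕ) + 1 = j + 1 := (congrArg Fin.val h' :)
        omega
  | mixed i j h =>
    simp only [map_mul, FreeGroup.lift_apply_of, gv]
    rw [mul_assoc, mul_assoc, conj_inl, ← mul_assoc, conj_inl, mul_assoc]
    congr 3
    apply Subtype.ext
    have e0 : i.succ = j.castSucc := by
      ext
      rw [hsc, hcs, h]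
    refine Prod.ext ?_ ?_
    · show tr i (tr j i.castSucc) = j.castSucc
      have h1 : tr j i.castSucc = i.castSucc := by
        unfold tr
        rw [swap_apply_of_ne_of_ne]
        · intro h'
          have : (i : ℕ) = j := (congrArg Fin.val h' :)
          omega
        · intro h'
          have : (i : ℕ) = j + 1 := (congrArg Fin.val h' :)
          omega
      rw [h1, tr, swap_apply_left, e0]
    · show tr i (tr j i.succ) = j.succ
      have h1 : tr j i.succ = j.succ := by
        rw [e0, tr, swap_apply_left]
      rw [h1, tr, swap_apply_of_ne_of_ne]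
      · intro h'
        have : (j : ℕ) + 1 = i := (congrArg Fin.val h' :)
        omega
      · intro h'
        have : (j : ℕ) + 1 = i + 1 := (congrArg Fin.val h' :)
        omega

/-- the homomorphism to the semidirect product -/
def toVS : VB n →* VS (Fin (n + 1)) :=
  PresentedGroup.toGroup (f := gv n) (by
    rintro _ ⟨u, v, h, rfl⟩
    rw [map_mul, map_inv, gv_rel n h, mul_inv_cancel])

end hom

end Q9.FJA
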