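import Pool.Agent.Q9.FJA.VB

/-!
# The virtual braid group is a semidirect product
-/

set_option autoImplicit false

namespace Q9.FJA

open Pool.Agent.Helper741 (alt map_alt)
open Equiv

/-- a permutation with given values -/
theorem ext_perm {ι X : Type} [Finite X] (a b : ι → X) (ha : Function.Injective a)
    (hb : Function.Injective b) : ∃ w : Perm X, ∀ i, w (a i) = b i := by
  obtain ⟨π, hπ⟩ := Q30.FJ.pinj (Set.range a) (fun x => b x.2.choose) (by
    intro x y hxy
    have h1 := hb hxy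
    apply Subtype.ext
    rw [← x.2.choose_spec, ← y.2.choose_spec, h1])
  refine ⟨π, fun i => ?_⟩
  have h1 := hπ ⟨a i, i, rfl⟩
  have h2 : (⟨a i, i, rfl⟩ : Set.range a).2.choose = i :=
    ha (⟨a i, i, rfl⟩ : Set.range a).2.choose_spec
  rw [h2] at h1
  exact h1

theorem tr_apply_castSucc {n : ℕ} (i : Fin n) : tr i i.castSucc = i.succ := swap_apply_left _ _

theorem tr_apply_succ {n : ℕ} (i : Fin n) : tr i i.succ = i.castSucc := swap_apply_right _ _

theorem tr_apply_ne {n : ℕ} (i : Fin n) (x : Fin (n + 1)) (h1 : (x : ℕ) ≠ i)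
    (h2 : (x : ℕ) ≠ i + 1) : tr i x = x := by
  apply swap_apply_of_ne_of_ne
  · intro h
    exact h1 (congrArg Fin.val h :)
  · intro h
    exact h2 (congrArg Fin.val h :)

section

variable {n : ℕ} {H : Type} [Group H] (s : Fin n → H) (π : Perm (Fin (n + 1)) →* H)

/-- conjugates of the generators -/
def cj (w : Perm (Fin (n + 1))) (i : Fin n) : H := π w * s i * (π w)⁻¹

variable {s π}
variable (hmix : ∀ i j : Fin n, (i : ℕ) + 1 = j → π (tr i) * π (tr j) * s i = s j * π (tr i) * π (tr j))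
  (hfar : ∀ i j : Fin n, ((i : ℕ) + 1 < j ∨ (j : ℕ) + 1 < i) → s i * π (tr j) = π (tr j) * s i)

include hmix in
/-- all generators are conjugates of the first one -/
theorem exists_conj (i₀ : Fin n) (h0 : (i₀ : ℕ) = 0) (i : Fin n) : ∃ u : Perm (Fin (n + 1)),
    u i₀.castSucc = i.castSucc ∧ u i₀.succ = i.succ ∧ s i = π u * s i₀ * (π u)⁻¹ := by
  obtain ⟨k, hk⟩ := i
  induction k with
  | zero =>
    have h1 : (⟨0, hk⟩ : Fin n) = i₀ := Fin.ext h0.symm
    rw [h1]
    exact ⟨1, rfl, rfl, by simp⟩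
  | succ k ih =>
    obtain ⟨u, h1, h2, h3⟩ := ih (by omega)
    have hj : ((⟨k, by omega⟩ : Fin n) : ℕ) + 1 = (⟨k + 1, hk⟩ : Fin n) := rfl
    have h4 := hmix ⟨k, by omega⟩ ⟨k + 1, hk⟩ hj
    have e0 : (⟨k, by omega⟩ : Fin n).succ = (⟨k + 1, hk⟩ : Fin n).castSucc := rfl
    refine ⟨tr ⟨k, by omega⟩ * tr ⟨k + 1, hk⟩ * u, ?_, ?_, ?_⟩
    · rw [Perm.mul_apply, Perm.mul_apply, h1, tr_apply_ne ⟨k + 1, hk⟩, tr_apply_castSucc]
      · rfl
      · show k ≠ k + 1
        omega
      · show k ≠ k + 1 + 1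
        omega
    · rw [Perm.mul_apply, Perm.mul_apply, h2, e0, tr_apply_castSucc, tr_apply_ne]
      · show k + 1 + 1 ≠ k
        omega
      · show k + 1 + 1 ≠ k + 1
        omega
    · rw [map_mul, map_mul, mul_inv_rev]
      have h5 : s ⟨k + 1, hk⟩ = π (tr ⟨k, by omega⟩) * π (tr ⟨k + 1, hk⟩) * s ⟨k, by omega⟩ *
          (π (tr ⟨k, by omega⟩) * π (tr ⟨k + 1, hk⟩))⁻¹ := by
        rw [h4]
        group
      rw [h5, h3]
      group

include hfar in
/-- the stabilizer of the first pair commutes with the first generator -/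
theorem stab_comm (i₀ : Fin n) (h0 : (i₀ : ℕ) = 0) (v : Perm (Fin (n + 1)))
    (h1 : v i₀.castSucc = i₀.castSucc) (h2 : v i₀.succ = i₀.succ) :
    π v * s i₀ = s i₀ * π v := by
  classical
  -- the subgroup of the permutations with this property
  obtain ⟨Z, hZ⟩ : ∃ Z : Subgroup (Perm (Fin (n + 1))), ∀ v, v ∈ Z ↔ π v * s i₀ = s i₀ * π v :=
    ⟨(Subgroup.centralizer {s i₀}).comap π, fun v => by
      rw [Subgroup.mem_comap, Subgroup.mem_centralizer_singleton_iff]⟩
  have htr : ∀ i : Fin n, 2 ≤ (i : ℕ) → tr i ∈ Z := by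
    intro i hi
    rw [hZ]
    exact (hfar i₀ i (Or.inl (by omega))).symm
  have hsw : ∀ (k : ℕ) (a b : Fin (n + 1)), 2 ≤ (a : ℕ) → (b : ℕ) = a + 1 + k → swap a b ∈ Z := by
    intro k
    induction k with
    | zero =>
      intro a b ha hb
      have h3 : (a : ℕ) < n := by omega
      have h4 : tr (⟨a, h3⟩ : Fin n) = swap a b := by
        unfold tr
        congr 1
        ext
        show (a : ℕ) + 1 = b
        omega
      rw [← h4]
      exact htr _ ha
    | succ k ih =>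
      intro a b ha hb
      have h3 : (b : ℕ) - 1 < n := by omega
      have e1 : (⟨(b : ℕ) - 1, h3⟩ : Fin n).succ = b := by
        ext
        show (b : ℕ) - 1 + 1 = b
        omega
      have h4 := ih a (⟨(b : ℕ) - 1, h3⟩ : Fin n).castSucc ha (by
        show (b : ℕ) - 1 = a + 1 + k
        omega)
      have h5 := htr ⟨(b : ℕ) - 1, h3⟩ (by show 2 ≤ (b : ℕ) - 1; omega)
      have h6 : swap a b = tr ⟨(b : ℕ) - 1, h3⟩ *
          swap a (⟨(b : ℕ) - 1, h3⟩ : Fin n).castSucc * (tr ⟨(b : ℕ) - 1, h3⟩)⁻¹ := by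
        rw [← swap_apply_apply, tr_apply_castSucc, e1, tr_apply_ne]
        · show (a : ℕ) ≠ (b : ℕ) - 1
          omega
        · show (a : ℕ) ≠ (b : ℕ) - 1 + 1
          omega
      rw [h6]
      exact Z.mul_mem (Z.mul_mem h5 h4) (Z.inv_mem h5)
  have hsw' : ∀ a b : Fin (n + 1), 2 ≤ (a : ℕ) → 2 ≤ (b : ℕ) → a ≠ b → swap a b ∈ Z := by
    intro a b ha hb hab
    rcases lt_or_gt_of_ne (fun h => hab (Fin.ext h) : (a : ℕ) ≠ b) with h | h
    · exact hsw (b - a - 1) a b ha (by omega)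
    · rw [swap_comm]
      exact hsw (a - b - 1) b a hb (by omega)
  -- reduction to the permutations of the other points
  have hp : ∀ x : Fin (n + 1), ¬ (2 ≤ (x : ℕ)) → x = i₀.castSucc ∨ x = i₀.succ := by
    intro x hx
    rcases Nat.lt_or_ge (x : ℕ) 1 with h | h
    · left
      ext
      show (x : ℕ) = i₀
      omega
    · right
      ext
      show (x : ℕ) = i₀ + 1
      omega
  have hp0 : ¬ (2 ≤ ((i₀.castSucc : Fin (n + 1)) : ℕ)) := by
    show ¬ (2 ≤ (i₀ : ℕ))
    omega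
  have hp1 : ¬ (2 ≤ ((i₀.succ : Fin (n + 1)) : ℕ)) := by
    show ¬ (2 ≤ (i₀ : ℕ) + 1)
    omega
  have hfix : ∀ x : Fin (n + 1), ¬ (2 ≤ (x : ℕ)) → v x = x := by
    intro x hx
    rcases hp x hx with h | h
    · rw [h, h1]
    · rw [h, h2]
  have hiff : ∀ x : Fin (n + 1), 2 ≤ ((v x : Fin (n + 1)) : ℕ) ↔ 2 ≤ (x : ℕ) := by
    intro x
    constructor
    · intro h
      by_contra hx
      rw [hfix x hx] at h
      exact hx h
    · intro h
      by_contra hx
      have h3 := hfix _ hx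
      have h4 := v.injective h3
      rw [h4] at hx
      exact hx h
  have hv : Perm.ofSubtype (v.subtypePerm (p := fun x : Fin (n + 1) => 2 ≤ (x : ℕ)) hiff) = v := by
    apply Perm.ofSubtype_subtypePerm
    intro x hx
    by_contra h
    exact hx (hfix x h)
  have hall : ∀ v' : Perm {x : Fin (n + 1) // 2 ≤ (x : ℕ)}, Perm.ofSubtype v' ∈ Z := by
    intro v'
    have h3 : v' ∈ Subgroup.closure {σ : Perm {x : Fin (n + 1) // 2 ≤ (x : ℕ)} | σ.IsSwap} := by
      rw [Perm.closure_isSwap]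
      trivial
    have h4 : Subgroup.closure {σ : Perm {x : Fin (n + 1) // 2 ≤ (x : ℕ)} | σ.IsSwap} ≤
        Z.comap Perm.ofSubtype := by
      rw [Subgroup.closure_le]
      rintro σ ⟨a, b, hab, rfl⟩
      show Perm.ofSubtype (swap a b) ∈ Z
      rw [Perm.ofSubtype_swap_eq]
      exact hsw' a b a.2 b.2 (fun h => hab (Subtype.ext h))
    exact h4 h3
  rw [← hZ, ← hv]
  exact hall _

include hmix hfar in
/-- the conjugates depend only on the pair -/
theorem cj_eq (w w' : Perm (Fin (n + 1))) (i j : Fin n) (h1 : w i.castSucc = w' j.castSucc)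
    (h2 : w i.succ = w' j.succ) : cj s π w i = cj s π w' j := by
  have hn : 0 < n := i.pos
  obtain ⟨u, hu1, hu2, hu3⟩ := exists_conj hmix ⟨0, hn⟩ rfl i
  obtain ⟨u', hu1', hu2', hu3'⟩ := exists_conj hmix ⟨0, hn⟩ rfl j
  have h3 := stab_comm hfar ⟨0, hn⟩ rfl ((w * u)⁻¹ * (w' * u')) (by
    rw [Perm.mul_apply, Perm.mul_apply, hu1', ← h1, Perm.inv_eq_iff_eq, Perm.mul_apply, hu1]) (by
    rw [Perm.mul_apply, Perm.mul_apply, hu2', ← h2, Perm.inv_eq_iff_eq, Perm.mul_apply, hu2])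
  unfold cj
  rw [hu3, hu3']
  rw [map_mul, map_inv, map_mul, map_mul] at h3
  have h4 : (π w' * π u') * s ⟨0, hn⟩ * (π w' * π u')⁻¹ =
      (π w * π u) * s ⟨0, hn⟩ * (π w * π u)⁻¹ := by
    have h5 : (π w * π u)⁻¹ * (π w' * π u') * s ⟨0, hn⟩ * ((π w * π u)⁻¹ * (π w' * π u'))⁻¹ =
        s ⟨0, hn⟩ := by
      rw [h3, mul_inv_cancel_right]
    calc (π w' * π u') * s ⟨0, hn⟩ * (π w' * π u')⁻¹ =
        (π w * π u) * ((π w * π u)⁻¹ * (π w' * π u') * s ⟨0, hn⟩ *
          ((π w * π u)⁻¹ * (π w' * π u'))⁻¹) * (π w * π u)⁻¹ := by group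
      _ = _ := by rw [h5]
  calc π w * (π u * s ⟨0, hn⟩ * (π u)⁻¹) * (π w)⁻¹ =
      (π w * π u) * s ⟨0, hn⟩ * (π w * π u)⁻¹ := by group
    _ = (π w' * π u') * s ⟨0, hn⟩ * (π w' * π u')⁻¹ := h4.symm
    _ = π w' * (π u' * s ⟨0, hn⟩ * (π u')⁻¹) * (π w')⁻¹ := by group

include hmix hfar in
/-- **the homomorphism from the semidirect product** -/
theorem exists_back (hn : 0 < n)
    (hb : ∀ i j : Fin n, (i : ℕ) + 1 = j → s i * s j * s i = s j * s i * s j)
    (hc : ∀ i j : Fin n, (i : ℕ) + 1 < j → s i * s j = s j * s i) :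
    ∃ Ψ : VS (Fin (n + 1)) →* H, (∀ i, Ψ (SemidirectProduct.inl (sg _ (adj n i))) = s i) ∧
      ∀ w, Ψ (SemidirectProduct.inr w) = π w := by
  classical
  -- representatives
  have hex : ∀ p : Pr (Fin (n + 1)), ∃ w : Perm (Fin (n + 1)),
      w (⟨0, hn⟩ : Fin n).castSucc = p.1.1 ∧ w (⟨0, hn⟩ : Fin n).succ = p.1.2 := by
    intro p
    obtain ⟨w, hw⟩ := ext_perm ![(⟨0, hn⟩ : Fin n).castSucc, (⟨0, hn⟩ : Fin n).succ]
      ![p.1.1, p.1.2] (by
        intro a b hab
        fin_cases a <;> fin_cases b <;> simp at hab ⊢) (by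
        intro a b hab
        have h1 := p.2
        fin_cases a <;> fin_cases b <;> simp at hab ⊢
        · exact h1 hab
        · exact h1 hab.symm)
    exact ⟨w, hw 0, hw 1⟩
  choose w hw1 hw2 using hex
  let x : Pr (Fin (n + 1)) → H := fun p => cj s π (w p) ⟨0, hn⟩
  have hx : ∀ (v : Perm (Fin (n + 1))) (i : Fin n) (p : Pr (Fin (n + 1))),
      v i.castSucc = p.1.1 → v i.succ = p.1.2 → x p = cj s π v i := by
    intro v i p h1 h2
    exact cj_eq hmix hfar _ _ _ _ ((hw1 p).trans h1.symm) ((hw2 p).trans h2.symm)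
  have hact : ∀ v p, x (pact _ v p) = π v * x p * (π v)⁻¹ := by
    intro v p
    rw [hx (v * w p) ⟨0, hn⟩ (pact _ v p) (by rw [Perm.mul_apply, hw1]; rfl)
      (by rw [Perm.mul_apply, hw2]; rfl)]
    show π (v * w p) * s ⟨0, hn⟩ * (π (v * w p))⁻¹ = π v * (π (w p) * s ⟨0, hn⟩ * (π (w p))⁻¹) * (π v)⁻¹
    rw [map_mul]
    group
  -- three different points
  have h3 : ∀ p q : Pr (Fin (n + 1)), p.1.2 = q.1.1 → p.1.1 ≠ q.1.2 →
      x p * x q * x p = x q * x p * x q := by
    intro p q h1 h2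
    have hinj : Function.Injective ![p.1.1, p.1.2, q.1.2] := by
      have e1 := p.2
      have e2 := q.2
      rw [← h1] at e2
      intro a b hab
      fin_cases a <;> fin_cases b <;> simp at hab ⊢
      · exact e1 hab
      · exact h2 hab
      · exact e1 hab.symm
      · exact e2 hab
      · exact h2 hab.symm
      · exact e2 hab.symm
    have hn2 : 3 ≤ n + 1 := by
      have := Fintype.card_le_of_injective _ hinj
      simpa using this
    have i0 : 0 < n := by omega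
    have i1 : 1 < n := by omega
    obtain ⟨v, hv⟩ := ext_perm ![(⟨0, i0⟩ : Fin n).castSucc, (⟨1, i1⟩ : Fin n).castSucc,
      (⟨1, i1⟩ : Fin n).succ] ![p.1.1, p.1.2, q.1.2] (by
        intro a b hab
        fin_cases a <;> fin_cases b <;> simp at hab ⊢) hinj
    have e1 : x p = cj s π v ⟨0, i0⟩ := hx v ⟨0, i0⟩ p (hv 0) (hv 1)
    have e2 : x q = cj s π v ⟨1, i1⟩ := hx v ⟨1, i1⟩ q ((hv 1).trans h1) (hv 2)
    rw [e1, e2]
    unfold cj
    have h4 := hb ⟨0, i0⟩ ⟨1, i1⟩ rfl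
    calc π v * s ⟨0, i0⟩ * (π v)⁻¹ * (π v * s ⟨1, i1⟩ * (π v)⁻¹) * (π v * s ⟨0, i0⟩ * (π v)⁻¹) =
        π v * (s ⟨0, i0⟩ * s ⟨1, i1⟩ * s ⟨0, i0⟩) * (π v)⁻¹ := by group
      _ = _ := by rw [h4]; group
  -- four different points
  have h4 : ∀ p q : Pr (Fin (n + 1)), p.1.1 ≠ q.1.1 → p.1.1 ≠ q.1.2 → p.1.2 ≠ q.1.1 →
      p.1.2 ≠ q.1.2 → x p * x q = x q * x p := by
    intro p q h1 h2 h5 h6
    have hinj : Function.Injective ![p.1.1, p.1.2, q.1.1, q.1.2] := by
      have e1 := p.2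
      have e2 := q.2
      intro a b hab
      fin_cases a <;> fin_cases b <;> simp at hab ⊢
      · exact e1 hab
      · exact h1 hab
      · exact h2 hab
      · exact e1 hab.symm
      · exact h5 hab
      · exact h6 hab
      · exact h1 hab.symm
      · exact h5 hab.symm
      · exact e2 hab
      · exact h2 hab.symm
      · exact h6 hab.symm
      · exact e2 hab.symm
    have hn2 : 4 ≤ n + 1 := by
      have := Fintype.card_le_of_injective _ hinj
      simpa using this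
    have i0 : 0 < n := by omega
    have i1 : 1 < n := by omega
    have i2 : 2 < n := by omega
    obtain ⟨v, hv⟩ := ext_perm ![(⟨0, i0⟩ : Fin n).castSucc, (⟨1, i1⟩ : Fin n).castSucc,
      (⟨2, i2⟩ : Fin n).castSucc, (⟨2, i2⟩ : Fin n).succ] ![p.1.1, p.1.2, q.1.1, q.1.2] (by
        intro a b hab
        fin_cases a <;> fin_cases b <;> simp at hab ⊢) hinj
    have e1 : x p = cj s π v ⟨0, i0⟩ := hx v ⟨0, i0⟩ p (hv 0) (hv 1)
    have e2 : x q = cj s π v ⟨2, i2⟩ := hx v ⟨2, i2⟩ q (hv 2) (hv 3)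
    rw [e1, e2]
    unfold cj
    have h7 := hc ⟨0, i0⟩ ⟨2, i2⟩ (by show 0 + 1 < 2; omega)
    calc π v * s ⟨0, i0⟩ * (π v)⁻¹ * (π v * s ⟨2, i2⟩ * (π v)⁻¹) =
        π v * (s ⟨0, i0⟩ * s ⟨2, i2⟩) * (π v)⁻¹ := by group
      _ = _ := by rw [h7]; group
  -- the homomorphism on the kernel
  have hrel : ∀ p q : Pr (Fin (n + 1)), alt (x p) (x q) (km _ p q) = alt (x q) (x p) (km _ p q) := by
    intro p q
    unfold km
    split_ifs with e1 e2 e3
    · rw [e1]
    · rw [alt_three, alt_three]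
      rcases e2 with ⟨e2, e3⟩ | ⟨e2, e3⟩
      · exact h3 p q e2 e3
      · exact (h3 q p e2.symm e3.symm).symm
    · rw [Pool.Agent.Helper741.alt_two, Pool.Agent.Helper741.alt_two]
      exact h4 p q e3.1 e3.2.1 e3.2.2.1 e3.2.2.2
    · rw [Pool.Agent.Helper741.alt_zero, Pool.Agent.Helper741.alt_zero]
  obtain ⟨f, hf⟩ : ∃ f : Artin (KV (Fin (n + 1))) →* H, ∀ p, f (sg _ p) = x p :=
    ⟨lift x hrel (fun _ => pow_zero _), lift_sg _ _ _⟩
  refine ⟨SemidirectProduct.lift f π ?_, ?_, ?_⟩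
  · intro v
    apply hom_ext
    intro p
    show f (kaut _ v (sg _ p)) = π v * f (sg _ p) * (π v)⁻¹
    rw [kaut_sg, hf, hf, hact]
  · intro i
    rw [SemidirectProduct.lift_inl, hf, hx 1 i (adj n i) rfl rfl]
    unfold cj
    rw [map_one, one_mul, inv_one, mul_one]
  · intro v
    rw [SemidirectProduct.lift_inr]

end

/-- **the virtual braid group embeds in the semidirect product** -/
theorem toVS_inj (n : ℕ) : Function.Injective (toVS n) := by
  rcases Nat.eq_zero_or_pos n with rfl | hn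
  · -- the trivial group
    have h1 : ∀ x : VB 0, x = 1 := by
      intro x
      have h2 : MonoidHom.id (VB 0) = 1 := by
        apply PresentedGroup.ext
        rintro (i | i)
        · exact i.elim0
        · exact i.elim0
      exact DFunLike.congr_fun h2 x
    intro x y _
    rw [h1 x, h1 y]
  · let s : Fin n → VB n := fun i => PresentedGroup.of (VGen.sigma i)
    let r : Fin n → VB n := fun i => PresentedGroup.of (VGen.rho i)
    have e1 : ∀ i j : Fin n, (i : ℕ) + 1 = j → s i * s j * s i = s j * s i * s j :=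
      fun i j h => vb_rel (VRel.sigma_braid i j h)
    have e2 : ∀ i j : Fin n, (i : ℕ) + 1 < j → s i * s j = s j * s i :=
      fun i j h => vb_rel (VRel.sigma_comm i j h)
    have e3 : ∀ i : Fin n, r i * r i = 1 := fun i => vb_rel (VRel.rho_square i)
    have e4 : ∀ i j : Fin n, (i : ℕ) + 1 = j → r i * r j * r i = r j * r i * r j :=
      fun i j h => vb_rel (VRel.rho_braid i j h)
    have e5 : ∀ i j : Fin n, (i : ℕ) + 1 < j → r i * r j = r j * r i :=
      fun i j h => vb_rel (VRel.rho_comm i j h)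
    have e6 : ∀ i j : Fin n, ((i : ℕ) + 1 < j ∨ (j : ℕ) + 1 < i) → s i * r j = r j * s i :=
      fun i j h => vb_rel (VRel.sigma_rho_comm i j h)
    have e7 : ∀ i j : Fin n, (i : ℕ) + 1 = j → r i * r j * s i = s j * r i * r j :=
      fun i j h => vb_rel (VRel.mixed i j h)
    obtain ⟨π, hπ⟩ := sym_lift r e3 e4 e5
    obtain ⟨Ψ, hΨ1, hΨ2⟩ := exists_back (s := s) (π := π)
      (fun i j h => by rw [hπ, hπ]; exact e7 i j h)
      (fun i j h => by rw [hπ]; exact e6 i j h) hn e1 e2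
    have h1 : Ψ.comp (toVS n) = MonoidHom.id (VB n) := by
      apply PresentedGroup.ext
      rintro (i | i)
      · show Ψ (toVS n (PresentedGroup.of (VGen.sigma i))) = s i
        rw [toVS, PresentedGroup.toGroup.of]
        exact hΨ1 i
      · show Ψ (toVS n (PresentedGroup.of (VGen.rho i))) = r i
        rw [toVS, PresentedGroup.toGroup.of]
        exact (hΨ2 (tr i)).trans (hπ i)
    intro x y hxy
    have h2 := DFunLike.congr_fun h1 x
    have h3 := DFunLike.congr_fun h1 y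
    rw [MonoidHom.comp_apply, MonoidHom.id_apply] at h2 h3
    rw [← h2, hxy, h3]

end Q9.FJA
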