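import Pool.Agent.Q9.FJA.VBi
import Pool.Agent.Q9.FJA.Ker

/-!
# Virtual braid groups: membership
-/

set_option autoImplicit false

namespace Q9.FJA

open Pool.Agent.Helper741 (alt map_alt)
open Pool.Agent.Y110.FJ (ClosedE)
open Q30.FJ (ClosedOver)
open Equiv

variable {C : ∀ (G : Type) [Group G], Prop}

/-- embeddings of the data induce embeddings of the groups -/
theorem amap_inj {B B' : Type} (D : ShData B) (D' : ShData B') (ι : B → B')
    (hι : Function.Injective ι) (h : Emb D D' ι) : Function.Injective (amap D D' ι h) := by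
  have e1 : Emb D (res D' ι hι) (fun u => u) := emb_res ι hι _ h
  have e2 : Emb (res D' ι hι) D (fun u => u) :=
    ⟨fun u v => (e1.m u v).symm, fun u => (e1.p u).symm⟩
  have h1 : amap D D' ι h = (pmap D' ι hι).comp (amap _ _ _ e1) := by
    apply hom_ext
    intro u
    rw [MonoidHom.comp_apply, amap_sg, amap_sg, pmap_sg]
  rw [h1]
  exact (pmap_inj D' ι hι).comp (amap_inj_of_inv _ _ _ _ e1 e2 (fun _ => rfl))

section cyc

/-- the Coxeter matrix of a permutation: `3` for `x, π x`, `2` otherwise -/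
def PM {Y : Type} [DecidableEq Y] (π : Perm Y) : CoxeterMatrix Y where
  M := fun x y => if x = y then 1 else if y = π x ∨ x = π y then 3 else 2
  isSymm := by
    ext x y
    show (if y = x then 1 else if x = π y ∨ y = π x then 3 else 2) =
      (if x = y then 1 else if y = π x ∨ x = π y then 3 else 2)
    by_cases h : x = y
    · rw [if_pos h, if_pos h.symm]
    · rw [if_neg h, if_neg (Ne.symm h)]
      congr 1
      rw [eq_iff_iff]
      exact or_comm
  diagonal x := if_pos rfl
  off_diagonal x y h := by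
    show (if x = y then 1 else if y = π x ∨ x = π y then 3 else 2) ≠ 1
    rw [if_neg h]
    split_ifs <;> decide

theorem PM_app {Y : Type} [DecidableEq Y] (π : Perm Y) (x y : Y) :
    PM π x y = if x = y then 1 else if y = π x ∨ x = π y then 3 else 2 := rfl

/-- the cycle with `k` vertices: the Coxeter matrix of affine type `A` with `k` generators, if
`3 ≤ k` -/
def cyc (k : ℕ) : CoxeterMatrix (ZMod k) := PM (Equiv.addRight (1 : ZMod k))

theorem cyc_app (k : ℕ) (x y : ZMod k) :
    cyc k x y = if x = y then 1 else if y = x + 1 ∨ x = y + 1 then 3 else 2 := rfl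

/-- small cycles -/
theorem cyc_mem (hC : ClosedE C) (hA : ∀ k, 3 ≤ k → C (Artin (cyc k))) (k : ℕ) (hk : k ≠ 0) :
    C (Artin (cyc k)) := by
  rcases Nat.lt_or_ge k 3 with h | h
  · have key : ∀ ι : ZMod k → ZMod 3, Function.Injective ι →
        (∀ x y, cyc 3 (ι x) (ι y) = cyc k x y) → C (Artin (cyc k)) := by
      intro ι hι h1
      exact hC.base.of_injective _ _ (amap (artinData (cyc k)) (artinData (cyc 3)) ι
        ⟨h1, fun _ => rfl⟩) (amap_inj _ _ ι hι _) (hA 3 le_rfl)
    interval_cases k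
    · exact absurd rfl hk
    · exact key (fun _ => 0) (fun _ _ _ => Subsingleton.elim _ _) (fun x y => by
        rw [cyc_app, cyc_app, if_pos rfl, if_pos (Subsingleton.elim _ _)])
    · exact key (fun x => if x = 0 then 0 else 1) (by decide) (by
        intro x y
        rw [cyc_app, cyc_app]
        revert x y
        decide)
  · exact hA k h

theorem iter_per {Y : Type} {π : Perm Y} {y : Y} {a b : ℕ}
    (h : a % Function.minimalPeriod π y = b % Function.minimalPeriod π y) :
    π^[a] y = π^[b] y := by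
  rw [← Function.iterate_mod_minimalPeriod_eq (n := a),
    ← Function.iterate_mod_minimalPeriod_eq (n := b), h]

/-- the data of the orbit of a point -/
theorem orbit_mem (hC : ClosedE C) (hA : ∀ k, 3 ≤ k → C (Artin (cyc k))) {Y : Type} [Finite Y]
    [DecidableEq Y] (π : Perm Y) (y : Y) :
    C (Shep (sub (artinData (PM π)) (fun x => ∃ i : ℕ, π^[i] y = x))) := by
  obtain ⟨k, hk⟩ : ∃ k, k = Function.minimalPeriod π y := ⟨_, rfl⟩
  have hk0 : k ≠ 0 := by
    rw [hk]
    have h1 : y ∈ Function.periodicPts π := by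
      rw [Function.mem_periodicPts]
      obtain ⟨m, hm, h⟩ := isOfFinOrder_iff_pow_eq_one.1 (isOfFinOrder_of_finite π)
      refine ⟨m, hm, ?_⟩
      show π^[m] y = y
      rw [Perm.iterate_eq_pow, h, Perm.one_apply]
    exact (Function.minimalPeriod_pos_of_mem_periodicPts h1).ne'
  have : NeZero k := ⟨hk0⟩
  let g : ZMod k → Y := fun i => π^[i.val] y
  have hg1 : ∀ i, g (i + 1) = π (g i) := by
    intro i
    show π^[(i + 1).val] y = π (π^[i.val] y)
    rw [← Function.iterate_succ_apply' π i.val y]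
    apply iter_per
    rw [← hk, ZMod.val_add, ZMod.val_one_eq_one_mod, Nat.mod_mod, Nat.add_mod_mod]
  have hginj : Function.Injective g := by
    intro i j hij
    have h1 : i.val = j.val := by
      refine (Function.iterate_eq_iterate_iff_of_lt_minimalPeriod ?_ ?_).1 hij
      · rw [← hk]
        exact ZMod.val_lt i
      · rw [← hk]
        exact ZMod.val_lt j
    exact ZMod.val_injective k h1
  have hex : ∀ x : {x : Y // ∃ i : ℕ, π^[i] y = x}, ∃ i : ZMod k, g i = x := by
    rintro ⟨x, i, rfl⟩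
    refine ⟨(i : ZMod k), ?_⟩
    show π^[(i : ZMod k).val] y = π^[i] y
    apply iter_per
    rw [← hk, ZMod.val_natCast, Nat.mod_mod]
  choose κ hκ using hex
  have e1 : Emb (sub (artinData (PM π)) (fun x => ∃ i : ℕ, π^[i] y = x)) (artinData (cyc k)) κ := by
    refine ⟨fun x x' => ?_, fun _ => rfl⟩
    show cyc k (κ x) (κ x') = PM π x x'
    rw [cyc_app, PM_app]
    have h1 : ∀ a b : {x : Y // ∃ i : ℕ, π^[i] y = x}, κ b = κ a + 1 ↔ (b : Y) = π a := by
      intro a b
      rw [← hginj.eq_iff, hg1, hκ, hκ]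
    have h2 : κ x = κ x' ↔ (x : Y) = x' := by
      rw [← hginj.eq_iff, hκ, hκ]
    simp only [h1, h2]
  refine hC.base.of_injective _ _ (amap _ _ κ e1) (amap_inj _ _ κ ?_ e1) (cyc_mem hC hA k hk0)
  intro x x' h
  apply Subtype.ext
  rw [← hκ, h, hκ]

/-- products of commuting parts -/
theorem split_mem (hC : ClosedE C) {Y : Type} (D : ShData Y) (p : Y → Prop)
    (h : ∀ x y, p x → ¬ p y → D.M x y = 2) (h1 : C (Shep (sub D p)))
    (h2 : C (Shep (sub D (fun y => ¬ p y)))) : C (Shep D) := by
  classical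
  let f : Y → Shep (sub D p) × Shep (sub D (fun y => ¬ p y)) := fun y =>
    if hy : p y then (sg (sub D p) ⟨y, hy⟩, 1) else (1, sg (sub D (fun y => ¬ p y)) ⟨y, hy⟩)
  have hf1 : ∀ y (hy : p y), f y = (sg (sub D p) ⟨y, hy⟩, 1) := fun y hy => dif_pos hy
  have hf2 : ∀ y (hy : ¬ p y), f y = (1, sg (sub D (fun y => ¬ p y)) ⟨y, hy⟩) :=
    fun y hy => dif_neg hy
  have halt : ∀ (a b : Shep (sub D p) × Shep (sub D (fun y => ¬ p y))) (m : ℕ),
      alt a b m = (alt a.1 b.1 m, alt a.2 b.2 m) := by
    intro a b m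
    exact Prod.ext (map_alt (MonoidHom.fst _ _) a b m) (map_alt (MonoidHom.snd _ _) a b m)
  have halt1 : ∀ (G : Type) [Group G] (m : ℕ), alt (1 : G) 1 m = 1 := by
    intro G _ m
    have := map_alt (1 : G →* G) 1 1 m
    simpa using this.symm
  have hfr : ∀ s t, alt (f s) (f t) (D.M s t) = alt (f t) (f s) (D.M s t) := by
    intro s t
    by_cases hs : p s <;> by_cases ht : p t
    · rw [hf1 s hs, hf1 t ht, halt, halt]
      have h3 := sg_rel (sub D p) ⟨s, hs⟩ ⟨t, ht⟩
      rw [sub_m] at h3
      refine Prod.ext h3 ?_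
      show alt 1 1 _ = alt 1 1 _
      rfl
    · rw [hf1 s hs, hf2 t ht, h s t hs ht, Pool.Agent.Helper741.alt_two,
        Pool.Agent.Helper741.alt_two, Prod.mk_mul_mk, Prod.mk_mul_mk, mul_one, one_mul, mul_one,
        one_mul]
    · rw [hf2 s hs, hf1 t ht, D.M.symmetric, h t s ht hs, Pool.Agent.Helper741.alt_two,
        Pool.Agent.Helper741.alt_two, Prod.mk_mul_mk, Prod.mk_mul_mk, mul_one, one_mul, mul_one,
        one_mul]
    · rw [hf2 s hs, hf2 t ht, halt, halt]
      have h3 := sg_rel (sub D (fun y => ¬ p y)) ⟨s, hs⟩ ⟨t, ht⟩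
      rw [sub_m] at h3
      refine Prod.ext ?_ h3
      show alt 1 1 _ = alt 1 1 _
      rfl
  have hfp : ∀ s, f s ^ D.p s = 1 := by
    intro s
    by_cases hs : p s
    · rw [hf1 s hs, Prod.pow_mk, one_pow]
      exact Prod.ext (sg_pow (sub D p) ⟨s, hs⟩) rfl
    · rw [hf2 s hs, Prod.pow_mk, one_pow]
      exact Prod.ext rfl (sg_pow (sub D (fun y => ¬ p y)) ⟨s, hs⟩)
  -- the two parts commute
  have hcomm : ∀ (a : Shep (sub D p)) (b : Shep (sub D (fun y => ¬ p y))),
      Commute (pmap D _ (val_inj p) a) (pmap D _ (val_inj (fun y => ¬ p y)) b) := by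
    intro a b
    induction a using induct with
    | h1 => rw [map_one]; exact Commute.one_left _
    | hs s =>
      induction b using induct with
      | h1 => rw [map_one]; exact Commute.one_right _
      | hs t =>
        rw [pmap_sg, pmap_sg]
        have h3 := sg_rel D s t
        rw [h s t s.2 t.2, Pool.Agent.Helper741.alt_two, Pool.Agent.Helper741.alt_two] at h3
        exact h3
      | hm a b ha hb => rw [map_mul]; exact ha.mul_right hb
      | hi a ha => rw [map_inv]; exact ha.inv_right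
    | hm a b ha hb => rw [map_mul]; exact ha.mul_left hb
    | hi a ha => rw [map_inv]; exact ha.inv_left
  have hinj : Function.Injective (lift f hfr hfp) := by
    have h3 : (MonoidHom.noncommCoprod _ _ hcomm).comp (lift f hfr hfp) = MonoidHom.id _ := by
      apply hom_ext
      intro s
      rw [MonoidHom.comp_apply, lift_sg, MonoidHom.id_apply]
      by_cases hs : p s
      · rw [hf1 s hs, MonoidHom.noncommCoprod_apply, map_one, mul_one, pmap_sg]
      · rw [hf2 s hs, MonoidHom.noncommCoprod_apply, map_one, one_mul, pmap_sg]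
    intro x y hxy
    have h4 := DFunLike.congr_fun h3 x
    have h5 := DFunLike.congr_fun h3 y
    rw [MonoidHom.comp_apply, MonoidHom.id_apply] at h4 h5
    rw [← h4, hxy, h5]
  exact hC.base.of_injective _ _ (lift f hfr hfp) hinj (hC.base.prod _ _ h1 h2)

/-- the groups of permutations -/
theorem perm_mem (hC : ClosedE C) (hA : ∀ k, 3 ≤ k → C (Artin (cyc k))) :
    ∀ (n : ℕ) (Y : Type) [Finite Y] [DecidableEq Y] (π : Perm Y), Nat.card Y = n →
      C (Artin (PM π)) := by
  intro n
  induction n using Nat.strong_induction_on with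
  | _ n ih =>
    intro Y _ _ π hn
    rcases isEmpty_or_nonempty Y with hY | ⟨⟨y⟩⟩
    · refine hC.base.of_injective _ _ (1 : Artin (PM π) →* Multiplicative ℤ) ?_ hC.base.int
      have h1 : MonoidHom.id (Artin (PM π)) = 1 := hom_ext fun s => hY.elim s
      intro a b _
      have h2 := DFunLike.congr_fun h1 a
      have h3 := DFunLike.congr_fun h1 b
      exact h2.trans h3.symm
    · have hiter : ∀ x : Y, (∃ i : ℕ, π^[i] y = x) ↔ ∃ i : ℕ, π^[i] y = π x := by
        intro x
        constructor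
        · rintro ⟨i, rfl⟩
          exact ⟨i + 1, Function.iterate_succ_apply' π i y⟩
        · rintro ⟨i, hi⟩
          obtain ⟨m, hm, h⟩ := isOfFinOrder_iff_pow_eq_one.1 (isOfFinOrder_of_finite π)
          refine ⟨m - 1 + i, ?_⟩
          rw [Function.iterate_add_apply, hi, ← Function.iterate_succ_apply,
            show (m - 1).succ = m by omega, Perm.iterate_eq_pow, h, Perm.one_apply]
      refine split_mem hC (artinData (PM π)) (fun x => ∃ i : ℕ, π^[i] y = x) ?_
        (orbit_mem hC hA π y) ?_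
      · intro x z hx hz
        show PM π x z = 2
        rw [PM_app, if_neg, if_neg]
        · rintro (rfl | rfl)
          · exact hz ((hiter x).1 hx)
          · exact hz ((hiter z).2 hx)
        · rintro rfl
          exact hz hx
      · have h1 := ih (Nat.card {x : Y // ¬ ∃ i : ℕ, π^[i] y = x}) (by
          rw [← hn]
          have := Fintype.ofFinite Y
          classical
          rw [Nat.card_eq_fintype_card, Nat.card_eq_fintype_card]
          exact Fintype.card_subtype_lt (x := y) (fun h' => h' ⟨0, rfl⟩)) _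
          (π.subtypePerm (p := fun x => ¬ ∃ i : ℕ, π^[i] y = x) (fun x => not_congr (hiter x).symm))
          rfl
        have e1 : Emb (sub (artinData (PM π)) (fun x => ¬ ∃ i : ℕ, π^[i] y = x))
            (artinData (PM (π.subtypePerm (p := fun x => ¬ ∃ i : ℕ, π^[i] y = x)
              (fun x => not_congr (hiter x).symm)))) (fun x => x) := by
          refine ⟨fun a b => ?_, fun _ => rfl⟩
          show PM _ a b = PM π a b
          rw [PM_app, PM_app]
          simp only [Subtype.ext_iff, Perm.subtypePerm_apply]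
        exact hC.base.of_injective _ _ (amap _ _ _ e1) (amap_inj _ _ _ (fun _ _ h => h) e1) h1

end cyc

/-- **the kernel** -/
theorem kv_mem (hC : ClosedE C) (hA : ∀ k, 3 ≤ k → C (Artin (cyc k)))
    {X : Type} [DecidableEq X] (T : Finset (Pr X))
    (hT : ∀ a ∈ T, ∀ b ∈ T, KV X a b ≠ 0) : C (Shep (fsub (artinData (KV X)) T)) := by
  classical
  -- the strands which occur
  obtain ⟨U, hU⟩ : ∃ U : Finset X, U = T.image (fun p => p.1.1) ∪ T.image (fun p => p.1.2) :=
    ⟨_, rfl⟩
  have hU1 : ∀ p : {p // p ∈ T}, p.1.1.1 ∈ U := by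
    intro p
    rw [hU, Finset.mem_union]
    exact Or.inl (Finset.mem_image_of_mem (fun p : Pr X => p.1.1) p.2)
  have hU2 : ∀ p : {p // p ∈ T}, p.1.1.2 ∈ U := by
    intro p
    rw [hU, Finset.mem_union]
    exact Or.inr (Finset.mem_image_of_mem (fun p : Pr X => p.1.2) p.2)
  have hz : ∀ p q : {p // p ∈ T}, p ≠ q → (p.1.1.2 = q.1.1.1 ∧ p.1.1.1 ≠ q.1.1.2) ∨
      (p.1.1.1 = q.1.1.2 ∧ p.1.1.2 ≠ q.1.1.1) ∨
      (p.1.1.1 ≠ q.1.1.1 ∧ p.1.1.1 ≠ q.1.1.2 ∧ p.1.1.2 ≠ q.1.1.1 ∧ p.1.1.2 ≠ q.1.1.2) := by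
    intro p q hpq
    have h1 := hT p p.2 q q.2
    rw [KV_app] at h1
    unfold km at h1
    rw [if_neg (fun h => hpq (Subtype.ext h))] at h1
    by_contra hc
    push Not at hc
    rw [if_neg, if_neg] at h1
    · exact h1 rfl
    · rintro ⟨e1, e2, e3, e4⟩
      exact e4 (hc.2.2 e1 e2 e3)
    · rintro (⟨e1, e2⟩ | ⟨e1, e2⟩)
      · exact e2 (hc.1 e1)
      · exact e2 (hc.2.1 e1)
  have hfst : ∀ p q : {p // p ∈ T}, p.1.1.1 = q.1.1.1 → p = q := by
    intro p q h
    by_contra hpq
    have e1 := p.1.2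
    have e2 := q.1.2
    rcases hz p q hpq with h1 | h1 | h1
    · exact e1 (h.trans h1.1.symm)
    · exact e2 (h.symm.trans h1.1)
    · exact h1.1 h
  have hsnd : ∀ p q : {p // p ∈ T}, p.1.1.2 = q.1.1.2 → p = q := by
    intro p q h
    by_contra hpq
    have e1 := p.1.2
    have e2 := q.1.2
    rcases hz p q hpq with h1 | h1 | h1
    · exact e2 (h1.1.symm.trans h)
    · exact e1 (h1.1.trans h.symm)
    · exact h1.2.2.2 h
  let a : {p // p ∈ T} → {x // x ∈ U} := fun p => ⟨p.1.1.1, hU1 p⟩
  let b : {p // p ∈ T} → {x // x ∈ U} := fun p => ⟨p.1.1.2, hU2 p⟩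
  have ha : Function.Injective a := by
    intro p q h
    exact hfst p q (congrArg (fun x : {x // x ∈ U} => x.1) h)
  have hb : Function.Injective b := by
    intro p q h
    exact hsnd p q (congrArg (fun x : {x // x ∈ U} => x.1) h)
  obtain ⟨π, hπ⟩ := ext_perm a b ha hb
  have e1 : Emb (fsub (artinData (KV X)) T) (artinData (PM π)) a := by
    refine ⟨fun p q => ?_, fun _ => rfl⟩
    show PM π (a p) (a q) = km X p q
    rw [PM_app, hπ, hπ]
    have hval : ∀ x y : {x // x ∈ U}, x = y ↔ x.1 = y.1 := fun x y => Subtype.ext_iff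
    by_cases hpq : p = q
    · subst hpq
      rw [if_pos rfl]
      unfold km
      rw [if_pos rfl]
    · rw [if_neg (fun h => hpq (ha h))]
      have hpq' : (p : Pr X) ≠ q := fun h => hpq (Subtype.ext h)
      unfold km
      rw [if_neg hpq']
      rcases hz p q hpq with h1 | h1 | h1
      · rw [if_pos, if_pos (Or.inl h1)]
        left
        rw [hval]
        exact h1.1.symm
      · rw [if_pos, if_pos (Or.inr h1)]
        right
        rw [hval]
        exact h1.1
      · rw [if_neg, if_neg, if_pos h1]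
        · rintro (h2 | h2)
          · exact h1.2.2.1 h2.1
          · exact h1.2.1 h2.1
        · rw [hval, hval]
          rintro (h2 | h2)
          · exact h1.2.2.1 h2.symm
          · exact h1.2.1 h2
  exact hC.base.of_injective _ _ (amap _ _ _ e1) (amap_inj _ _ _ ha e1)
    (perm_mem hC hA _ _ π rfl)

/-- **semidirect products** -/
theorem vs_mem {𝒟 : ∀ (G : Type) [Group G], Prop} (hC : ClosedE C) (hD : ClosedOver C 𝒟)
    (hW : ∀ (n : ℕ) (M : CoxeterMatrix (Fin n)), C M.Group)
    (hA : ∀ k, 3 ≤ k → C (Artin (cyc k))) (X Q : Type) [DecidableEq X] [Group Q] (hQ : 𝒟 Q)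
    (ρ : Q →* Perm X) : 𝒟 (Artin (KV X) ⋊[(kaut X).comp ρ] Q) := by
  have hN : (SemidirectProduct.inl : Artin (KV X) →* Artin (KV X) ⋊[(kaut X).comp ρ] Q).range =
      (SemidirectProduct.rightHom : Artin (KV X) ⋊[(kaut X).comp ρ] Q →* Q).ker :=
    SemidirectProduct.range_inl_eq_ker_rightHom
  have hNn : (SemidirectProduct.inl :
      Artin (KV X) →* Artin (KV X) ⋊[(kaut X).comp ρ] Q).range.Normal := by
    rw [hN]
    infer_instance
  refine shep_kernel (artinData (KV X)) hC hD hW (fun T hT => kv_mem hC hA T hT) _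
    (SemidirectProduct.inl : Artin (KV X) →* Artin (KV X) ⋊[(kaut X).comp ρ] Q).range ?_
    (MonoidHom.ofInjective SemidirectProduct.inl_injective) ?_
  · refine hD.of_injective _ _ (QuotientGroup.lift _ SemidirectProduct.rightHom (by
      rw [hN])) ?_ hQ
    rw [injective_iff_map_eq_one]
    intro x hx
    obtain ⟨x, rfl⟩ := QuotientGroup.mk_surjective x
    rw [QuotientGroup.eq_one_iff, hN]
    exact hx
  · intro g F
    refine ⟨⟨pact X (ρ g.right), pact X (ρ g.right)⁻¹, fun p => ?_, fun p => ?_⟩,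
      ⟨SemidirectProduct.inl g.left⁻¹, ⟨_, rfl⟩⟩, ⟨fun u v => km_pact X _ u v, fun _ => rfl⟩, ?_⟩
    · rw [← pact_mul, inv_mul_cancel, pact_one]
    · rw [← pact_mul, mul_inv_cancel, pact_one]
    · intro p _
      show (SemidirectProduct.inl g.left⁻¹ * g) * SemidirectProduct.inl (sg _ p) *
        (SemidirectProduct.inl g.left⁻¹ * g)⁻¹ = SemidirectProduct.inl (sg _ (pact X (ρ g.right) p))
      have h1 : (SemidirectProduct.inl g.left⁻¹ * g : Artin (KV X) ⋊[(kaut X).comp ρ] Q) =
          SemidirectProduct.inr g.right := by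
        conv_lhs => rw [← SemidirectProduct.inl_left_mul_inr_right g]
        rw [← mul_assoc, ← map_mul, SemidirectProduct.mul_left]
        simp
      rw [h1, ← kaut_sg]
      have h2 := SemidirectProduct.inl_aut (φ := (kaut X).comp ρ) g.right (sg _ p)
      rw [map_inv] at h2
      exact h2.symm

/-- **virtual braid groups** -/
theorem vb_mem (hC : ClosedE C) (hW : ∀ (n : ℕ) (M : CoxeterMatrix (Fin n)), C M.Group)
    (hA : ∀ k, 3 ≤ k → C (Artin (cyc k))) (n : ℕ) : C (VB n) := by
  refine hC.base.of_injective _ _ (toVS n) (toVS_inj n) ?_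
  exact vs_mem hC ⟨hC.base.of_injective, hC.ext⟩ hW hA (Fin (n + 1)) (Perm (Fin (n + 1)))
    (Pool.Agent.Y430.SS.of_finite hC.base _ inferInstance) (MonoidHom.id _)

end Q9.FJA
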