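import Pool.Agent.Q9.FJA.Coc
import Pool.Agent.Q182.FVDefs

/-!
# Consequences of the cocycle
-/

set_option autoImplicit false

namespace Q9.FJA

open Pool.Agent.Helper741 (alt)
open Q182.FV

section coc

variable {G W X H : Type} [Group G] [Group W] [MulAction W X] [Group H] {θ : G →* W}
  {c : G → X → H}

theorem coc_one (hc : ∀ g h x, c (g * h) x = c g (θ h • x) * c h x) (x : X) : c 1 x = 1 := by
  have h1 := hc 1 1 x
  rw [mul_one, map_one, one_smul] at h1
  exact (mul_eq_left.1 h1.symm)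

theorem coc_inv (hc : ∀ g h x, c (g * h) x = c g (θ h • x) * c h x) (g : G) (x : X) :
    c g⁻¹ x = (c g (θ g⁻¹ • x))⁻¹ := by
  have h1 := hc g g⁻¹ x
  rw [mul_inv_cancel, coc_one hc] at h1
  exact (inv_eq_of_mul_eq_one_right h1.symm).symm

/-- the homomorphisms on the kernel -/
def pih (hc : ∀ g h x, c (g * h) x = c g (θ h • x) * c h x) (x : X) : θ.ker →* H :=
  MonoidHom.mk' (fun n => c n x) (by
    intro n m
    show c (n * m) x = _
    rw [hc, (show θ (m : G) = 1 from m.2), one_smul])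

theorem conjInv (hc : ∀ g h x, c (g * h) x = c g (θ h • x) * c h x) :
    ConjInvariant (Set.range (pih hc)) := by
  rintro _ ⟨x, rfl⟩ g
  refine ⟨_, ⟨θ g⁻¹ • x, rfl⟩, c g (θ g⁻¹ • x), ?_⟩
  intro n n' h
  show c n' x = c g (θ g⁻¹ • x) * c n (θ g⁻¹ • x) * (c g (θ g⁻¹ • x))⁻¹
  have h1 : θ ((n : G) * g⁻¹) = θ g⁻¹ := by
    rw [map_mul, (show θ (n : G) = 1 from n.2), one_mul]
  rw [h, mul_assoc, hc, h1, hc, coc_inv hc g x, mul_assoc]

theorem fin_all (hc : ∀ g h x, c (g * h) x = c g (θ h • x) * c h x) (S : Set G)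
    (hS : ∀ s ∈ S, (Set.range (c s)).Finite) (g : G) (hg : g ∈ Subgroup.closure S) :
    (Set.range (c g)).Finite := by
  induction hg using Subgroup.closure_induction with
  | mem x hx => exact hS x hx
  | one =>
    refine (Set.finite_singleton (1 : H)).subset ?_
    rintro _ ⟨x, rfl⟩
    exact coc_one hc x
  | mul a b _ _ ha hb =>
    refine (ha.mul hb).subset ?_
    rintro _ ⟨x, rfl⟩
    show c (a * b) x ∈ _
    rw [hc]
    exact Set.mul_mem_mul ⟨_, rfl⟩ ⟨_, rfl⟩
  | inv a _ ha =>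
    refine (ha.inv).subset ?_
    rintro _ ⟨x, rfl⟩
    show c a⁻¹ x ∈ _
    rw [coc_inv hc, Set.inv_mem_inv]
    exact ⟨_, rfl⟩

theorem locFin (hc : ∀ g h x, c (g * h) x = c g (θ h • x) * c h x)
    (hf : ∀ g, (Set.range (c g)).Finite) : LocallyFinitelyMany (Set.range (pih hc)) := by
  classical
  intro E hE
  -- the restrictions to `E`
  have hfin : (Set.range fun x : X => fun n : E => pih hc x n).Finite := by
    have : Finite E := hE
    refine (Set.Finite.pi' fun n : E => hf (n : θ.ker)).subset ?_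
    rintro _ ⟨x, rfl⟩ n
    exact ⟨x, rfl⟩
  have hex : ∀ φ : E → H, ∃ x : Option X, (∃ y, (fun n : E => pih hc y n) = φ) →
      ∃ y, x = some y ∧ (fun n : E => pih hc y n) = φ := by
    intro φ
    by_cases h : ∃ y, (fun n : E => pih hc y n) = φ
    · obtain ⟨y, hy⟩ := h
      exact ⟨some y, fun _ => ⟨y, rfl, hy⟩⟩
    · exact ⟨none, fun h' => absurd h' h⟩
  choose r hr using hex
  refine ⟨{ψ | ∃ y, ψ = pih hc y ∧ r (fun n : E => pih hc y n) = some y}, ?_, ?_, ?_⟩
  · rintro _ ⟨y, rfl, -⟩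
    exact ⟨y, rfl⟩
  · have h1 : ({y : X | r (fun n : E => pih hc y n) = some y}).Finite := by
      refine Set.Finite.of_finite_image (f := fun x : X => fun n : E => pih hc x n)
        (hfin.subset ?_) ?_
      · rintro _ ⟨x, -, rfl⟩
        exact ⟨x, rfl⟩
      · intro x hx y hy hxy
        have hxy' : (fun n : E => pih hc x n) = (fun n : E => pih hc y n) := hxy
        have hx' : r (fun n : E => pih hc x n) = some x := hx
        have hy' : r (fun n : E => pih hc y n) = some y := hy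
        rw [hxy', hy'] at hx'
        exact (Option.some.inj hx').symm
    refine (h1.image (pih hc)).subset ?_
    rintro _ ⟨y, rfl, hy⟩
    exact ⟨y, hy, rfl⟩
  · rintro _ ⟨x, rfl⟩
    obtain ⟨y, hy1, hy2⟩ := hr _ ⟨x, rfl⟩
    refine ⟨pih hc y, ⟨y, rfl, ?_⟩, 1, ?_⟩
    · rw [hy2]
      exact hy1
    · intro n hn
      rw [one_mul, inv_one, mul_one]
      exact (congrFun hy2 ⟨n, hn⟩).symm

end coc

section par

variable {B A : Type} {D : ShData B}
variable [Fintype B] [DecidableEq B] {W : Type} [Group W] (cs : CoxeterSystem D.M W)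

/-- the cocycle of a parabolic subgroup -/
theorem par_coc (ι : A → B) (hι : Function.Injective ι) :
    ∃ (X : Type) (_ : MulAction W X) (x₀ : X) (c : Shep D → X → Shep (res D ι hι)),
      (∀ g h x, c (g * h) x = c g (toCox cs h • x) * c h x) ∧
      (∀ g, (Set.range (c g)).Finite) ∧
      ∀ y, toCox cs (pmap D ι hι y) • x₀ = x₀ ∧ c (pmap D ι hι y) x₀ = y := by
  classical
  obtain ⟨f, hf⟩ : ∃ f : B → Shep (res D ι hι), ∀ a, f (ι a) = sg _ a := by
    refine ⟨fun b => if h : ∃ a, ι a = b then sg _ h.choose else 1, ?_⟩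
    intro a
    have h : ∃ a', ι a' = ι a := ⟨a, rfl⟩
    show (if h : ∃ a', ι a' = ι a then sg (res D ι hι) h.choose else 1) = _
    rw [dif_pos h, hι h.choose_spec]
  obtain ⟨c, h1, h2, h3⟩ := exists_cocycle (Set.range ι) cs f (by
    rintro _ ⟨a, rfl⟩ _ ⟨b, rfl⟩
    rw [hf, hf]
    exact sg_rel (res D ι hι) a b) (by
    rintro _ ⟨a, rfl⟩
    rw [hf]
    exact sg_pow (res D ι hι) a)
  refine ⟨W ⧸ Q27.Cox.P cs (Set.range ι), inferInstance, ((1 : W) : W ⧸ _), c, h1, ?_, ?_⟩
  · intro g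
    refine fin_all h1 (Set.range (sg D)) ?_ g (by rw [closure_sg]; trivial)
    rintro _ ⟨s, rfl⟩
    refine ((Set.finite_range f).insert 1).subset ?_
    rintro _ ⟨x, rfl⟩
    rcases h2 s x with h | ⟨j, -, h⟩
    · exact Or.inl h
    · exact Or.inr ⟨j, h.symm⟩
  · intro y
    have hstab : ∀ y, toCox cs (pmap D ι hι y) •
        ((1 : W) : W ⧸ Q27.Cox.P cs (Set.range ι)) = ((1 : W) : W ⧸ Q27.Cox.P cs (Set.range ι)) := by
      intro y
      show ((toCox cs (pmap D ι hι y) * 1 : W) : W ⧸ Q27.Cox.P cs (Set.range ι)) = _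
      rw [QuotientGroup.eq, mul_one, mul_one]
      refine Subgroup.inv_mem _ ?_
      induction y using induct with
      | h1 => rw [map_one, map_one]; exact Subgroup.one_mem _
      | hs s =>
        rw [pmap_sg, toCox_sg]
        exact Q27.Cox.simple_mem_P ⟨s, rfl⟩
      | hm a b ha hb => rw [map_mul, map_mul]; exact Subgroup.mul_mem _ ha hb
      | hi a ha => rw [map_inv, map_inv]; exact Subgroup.inv_mem _ ha
    refine ⟨hstab y, ?_⟩
    induction y using induct with
    | h1 => rw [map_one, coc_one h1]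
    | hs s => rw [pmap_sg, h3 (ι s) ⟨s, rfl⟩, hf]
    | hm a b ha hb => rw [map_mul, h1, hstab b, ha, hb]
    | hi a ha =>
      rw [map_inv, coc_inv h1]
      have h4 : toCox cs (pmap D ι hι a)⁻¹ •
          ((1 : W) : W ⧸ Q27.Cox.P cs (Set.range ι)) = ((1 : W) : W ⧸ _) := by
        have := hstab a⁻¹
        rwa [map_inv] at this
      rw [h4, ha]

omit [DecidableEq B] in
/-- parabolic subgroups, finite rank -/
theorem pmap_inj_fin (ι : A → B) (hι : Function.Injective ι) :
    Function.Injective (pmap D ι hι) := by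
  classical
  obtain ⟨X, _, x₀, c, -, -, h3⟩ := par_coc D.M.toCoxeterSystem ι hι
  intro y z hyz
  have h1 := (h3 y).2
  rw [hyz, (h3 z).2] at h1
  exact h1.symm

end par

end Q9.FJA
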